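import Pool.Agent.helper66.JS.Problem
import Pool.Prelude.Def_H_3587d628

/-!
# Three-machine job shop: definitions

Auxiliary objects of the hardness construction (integral schedules, letters, words, inhibitor nets,
token machines).
-/

set_option autoImplicit false

namespace Pool.Agent.helper66.JS

open Turing

/-! ## Integral schedules -/

structure NSched (jobs : List Job) (L : ℕ) (s : ℕ → ℕ → ℕ) : Prop where
  bound : ∀ j i m p, IsOp jobs j i m p → s j i + p ≤ L
  order : ∀ j i m p m' p', IsOp jobs j i m p → IsOp jobs j (i + 1) m' p' →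
    s j i + p ≤ s j (i + 1)
  machine : ∀ j i j' i' m p p', IsOp jobs j i m p → IsOp jobs j' i' m p' → (j, i) ≠ (j', i') →
    s j i + p ≤ s j' i' ∨ s j' i' + p' ≤ s j i

/-! ## Letters -/

inductive Let
  | n1 | a | z | s | n2 | up | dn | r | e1 | e2
  deriving DecidableEq

/-- times on machine 0 -/
def pp : Let → ℕ
  | .n1 => 21 | .a => 26 | .z => 20 | .s => 24 | .n2 => 21
  | .up => 24 | .dn => 25 | .r => 24 | .e1 => 26 | .e2 => 22

/-- times on machine 1 (`0`: no operation) -/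
def uu : Let → ℕ
  | .n1 => 21 | .a => 20 | .z => 26 | .s => 48 | .n2 => 21
  | .up => 23 | .dn => 26 | .r => 0 | .e1 => 22 | .e2 => 0

/-- times on machine 2 (`0`: no operation) -/
def vv : Let → ℕ
  | .n1 => 21 | .a => 32 | .z => 14 | .s => 0 | .n2 => 21
  | .up => 25 | .dn => 24 | .r => 48 | .e1 => 0 | .e2 => 0

/-- the operations of a letter -/
def opsOf : Let → Job
  | .n1 => [(0, 21), (1, 21), (2, 21)]
  | .a => [(0, 26), (1, 20), (2, 32)]
  | .z => [(0, 20), (1, 26), (2, 14)]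
  | .s => [(0, 24), (1, 48)]
  | .n2 => [(0, 21), (2, 21), (1, 21)]
  | .up => [(0, 24), (2, 25), (1, 23)]
  | .dn => [(0, 25), (2, 24), (1, 26)]
  | .r => [(0, 24), (2, 48)]
  | .e1 => [(0, 26), (1, 22)]
  | .e2 => [(0, 22)]

/-- letters whose first operation after machine 0 is on machine 1 -/
def f2 : Let → Bool
  | .n1 | .a | .z | .s | .e1 => true
  | _ => false

/-- letters whose first operation after machine 0 is on machine 2 -/
def f3 : Let → Bool
  | .n2 | .up | .dn | .r => true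
  | _ => false

/-- letters with three operations -/
def three : Let → Bool
  | .n1 | .a | .z | .n2 | .up | .dn => true
  | _ => false

/-- Times of all operations of a family of letters: `t1, t2, t3` are the start times on machines
`0, 1, 2`; `s2, s3` those of the two starter operations (of lengths 26 and 48). -/
structure GS {Λ : Type} (kd : Λ → Let) (L : ℕ) (t1 t2 t3 : Λ → ℕ) (s2 s3 : ℕ) : Prop where
  d1 : ∀ x y, x ≠ y → t1 x + pp (kd x) ≤ t1 y ∨ t1 y + pp (kd y) ≤ t1 x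
  d2 : ∀ x y, x ≠ y → 0 < uu (kd x) → 0 < uu (kd y) →
    t2 x + uu (kd x) ≤ t2 y ∨ t2 y + uu (kd y) ≤ t2 x
  d3 : ∀ x y, x ≠ y → 0 < vv (kd x) → 0 < vv (kd y) →
    t3 x + vv (kd x) ≤ t3 y ∨ t3 y + vv (kd y) ≤ t3 x
  g2 : ∀ x, 0 < uu (kd x) → t2 x + uu (kd x) ≤ s2 ∨ s2 + 26 ≤ t2 x
  g3 : ∀ x, 0 < vv (kd x) → t3 x + vv (kd x) ≤ s3 ∨ s3 + 48 ≤ t3 x
  b1 : ∀ x, t1 x + pp (kd x) ≤ L
  b2 : ∀ x, 0 < uu (kd x) → t2 x + uu (kd x) ≤ L
  b3 : ∀ x, 0 < vv (kd x) → t3 x + vv (kd x) ≤ L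
  bs2 : s2 + 26 ≤ L
  bs3 : s3 + 48 ≤ L
  p2 : ∀ x, f2 (kd x) = true → t1 x + pp (kd x) ≤ t2 x
  p3 : ∀ x, f3 (kd x) = true → t1 x + pp (kd x) ≤ t3 x
  q2 : ∀ x, f2 (kd x) = true → 0 < vv (kd x) → t2 x + uu (kd x) ≤ t3 x
  q3 : ∀ x, f3 (kd x) = true → 0 < uu (kd x) → t3 x + vv (kd x) ≤ t2 x

/-! ## The automaton -/

inductive St
  | N1 | Z1 | X | N2 | Z2 | F1 | F2
  deriving DecidableEq

def step : St → Let → Option St
  | .N1, .n1 => some .N1
  | .Z1, .n1 => some .Z1
  | .N1, .a => some .X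
  | .X, .z => some .N1
  | .N1, .s => some .N2
  | .Z1, .s => some .Z2
  | .N2, .n2 => some .N2
  | .Z2, .n2 => some .Z2
  | .N2, .up => some .Z2
  | .Z2, .dn => some .N2
  | .N2, .r => some .N1
  | .Z2, .r => some .Z1
  | .N1, .e1 => some .F1
  | .F1, .e2 => some .F2
  | _, _ => none

def run : St → List Let → Option St
  | S, [] => some S
  | S, x :: l => (step S x).bind (fun S' => run S' l)

/-! ## Words and instances -/

/-- Word data: ticks `0, …, K`; in tick `k` the word has the letter `z` if `k ∈ Z`, `a` if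
`k ∈ A` and `n1` otherwise; between ticks `k` and `k + 1` it has `up` or `dn` if `ud = (k, _)`,
resp. `(_, k)`, and `n2` otherwise. -/
structure WD where
  K : ℕ
  A : Finset ℕ
  Z : Finset ℕ
  ud : Option (ℕ × ℕ)

def WD.at (w : WD) (q : ℕ) : Let :=
  if q % 2 = 0 then (if q / 2 ∈ w.Z then .z else if q / 2 ∈ w.A then .a else .n1)
  else match w.ud with
    | none => .n2
    | some (u, d) => if q / 2 = u then .up else if q / 2 = d then .dn else .n2

def WD.letters (w : WD) : List Let := (List.range (2 * w.K + 1)).map w.at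

structure WD.Ok (w : WD) : Prop where
  hA : ∀ k ∈ w.A, k ≤ w.K
  hZ : ∀ k ∈ w.Z, k ≤ w.K
  disj : Disjoint w.A w.Z
  hud : ∀ u d, w.ud = some (u, d) → u < d ∧ d < w.K

/-- all words: the given ones, fillers, toggles and the two final letters -/
def words (W : List WD) (E : ℕ) : List (List Let) :=
  W.map WD.letters ++ List.replicate (3 * (E + 1)) [.n1] ++ List.replicate (3 * E) [.n2] ++
    List.replicate E [.s] ++ List.replicate E [.r] ++ [[.e1], [.e2]]

def jobOf (w : List Let) : Job := w.flatMap opsOf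

def instJobs (ws : List (List Let)) : List Job := [(1, 26)] :: [(2, 48)] :: ws.map jobOf

def Lof (ws : List (List Let)) : ℕ := (ws.flatten.map pp).sum

def inst (W : List WD) (E : ℕ) : Inst := (instJobs (words W E), Lof (words W E))

/-- occurrences of letters -/
abbrev Occ (ws : List (List Let)) := Σ j : Fin ws.length, Fin (ws.get j).length

def kdOf (ws : List (List Let)) (x : Occ ws) : Let := (ws.get x.1).get x.2

/-- Weak phase solution: `τ j k` is the tick of the letter number `2 k` of word `j`, `σ j k` the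
tick before its letter number `2 k + 1`. -/
structure WPS (W : List WD) (E : ℕ) (τ σ : Fin W.length → ℕ → ℕ) : Prop where
  mono : ∀ j, ∀ k < (W.get j).K, τ j k ≤ σ j k ∧ σ j k < τ j (k + 1)
  bd : ∀ j, τ j (W.get j).K ≤ E
  bal : ∀ t, ∑ j, ((W.get j).A.filter (fun k => τ j k = t)).card =
    ∑ j, ((W.get j).Z.filter (fun k => τ j k = t)).card
  blk : ∀ j u d, (W.get j).ud = some (u, d) → ∀ t, σ j u < t → t ≤ σ j d →
    ∀ j', ∀ k ∈ (W.get j').A ∪ (W.get j').Z, τ j' k ≠ t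

/-- number of words in `S` (words with start ticks) for which the tick `t` is in the set `f w` -/
def cntAt (S : List (WD × ℕ)) (f : WD → Finset ℕ) (t : ℕ) : ℕ :=
  S.countP (fun p => decide (p.2 ≤ t ∧ t - p.2 ∈ f p.1))

def WD.U (w : WD) : Finset ℕ := match w.ud with
  | none => ∅
  | some (u, _) => {u}

def WD.D (w : WD) : Finset ℕ := match w.ud with
  | none => ∅
  | some (_, d) => {d}

/-- Strong phase solution: every word has a start tick and its letters follow without gaps. -/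
structure SPS (S : List (WD × ℕ)) (E : ℕ) (zs : ℕ → Bool) : Prop where
  bd : ∀ p ∈ S, p.2 + p.1.K ≤ E
  bal : ∀ t ≤ E, cntAt S WD.A t = cntAt S WD.Z t
  blk : ∀ t ≤ E, zs t = true → cntAt S WD.A t = 0
  up : ∀ t < E, cntAt S WD.U t = if zs t = false ∧ zs (t + 1) = true then 1 else 0
  dn : ∀ t < E, cntAt S WD.D t = if zs t = true ∧ zs (t + 1) = false then 1 else 0
  z0 : zs 0 = false
  zE : zs E = false

/-! ## Kinds of words and minimal contributions -/

def WD.Closed (w : WD) : Prop :=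
  w.A.card = w.Z.card ∧ 0 ∈ w.Z ∧ w.K ∈ w.A ∧ ∀ x ∈ w.Z, ∀ y ∈ w.A, x < y

def WD.IsInit (w : WD) : Prop := w.Z = ∅ ∧ w.A = {w.K} ∧ w.ud = none

def WD.IsFin (w : WD) : Prop := w.A = ∅ ∧ w.Z = {0} ∧ w.ud = none

/-- minimal contribution of a word to (sum of the ticks of the `a`) - (sum of those of the `z`) -/
def lb (E : ℕ) (w : WD) : ℤ :=
  (∑ k ∈ w.A, (k : ℤ)) - (∑ k ∈ w.Z, (k : ℤ)) + if w.A = ∅ then (w.K : ℤ) - E else 0

/-! ## Inhibitor nets -/

/-- A rule takes a token from each of the places `i0, i1, i2` and adds one to each of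
`o0, o1, o2`; it may be used only if the place `l` is empty. -/
structure Rule where
  (i0 i1 i2 o0 o1 o2 l : ℕ)

def Rule.En (R : Rule) (m : ℕ → ℕ) : Prop := 0 < m R.i0 ∧ 0 < m R.i1 ∧ 0 < m R.i2 ∧ m R.l = 0

def Rule.fire (R : Rule) (m : ℕ → ℕ) (s : ℕ) : ℕ :=
  m s - (if s = R.i0 ∨ s = R.i1 ∨ s = R.i2 then 1 else 0) +
    (if s = R.o0 ∨ s = R.o1 ∨ s = R.o2 then 1 else 0)

inductive Fires (rule : ℕ → Rule) : (ℕ → ℕ) → List ℕ → (ℕ → ℕ) → Prop
  | nil (m : ℕ → ℕ) : Fires rule m [] m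
  | cons (m : ℕ → ℕ) (i : ℕ) (is : List ℕ) (m' : ℕ → ℕ) (h : (rule i).En m)
      (h' : Fires rule ((rule i).fire m) is m') : Fires rule m (i :: is) m'

/-- A net with `a` places, `Zn` zones (copies of the places, with initial markings `c0 z` and
final markings `cf z`), `r` rules, and the number `mult i` of uses of each rule (all zones
together). `Cyc` is a bound on the number of rounds. -/
structure Net where
  a : ℕ
  Zn : ℕ
  r : ℕ
  rule : ℕ → Rule
  mult : ℕ → ℕ
  c0 : ℕ → ℕ → ℕ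
  cf : ℕ → ℕ → ℕ
  Cyc : ℕ

/-- tick of a place inside its zone -/
def th (s : ℕ) : ℕ := 3 + 2 * s

namespace Net

variable (n : Net)

def zl : ℕ := 2 * n.a + 4

def P : ℕ := n.Zn * n.zl

def E : ℕ := (n.Cyc + 1) * n.P - 1

def tw : WD := ⟨n.P, {n.P}, {0}, none⟩

def rw (R : Rule) : WD :=
  ⟨2 * n.P + 1, {n.P + th R.o0, n.P + th R.o1, n.P + th R.o2, 2 * n.P, 2 * n.P + 1},
    {0, 1, th R.i0, th R.i1, th R.i2}, some (th R.l - 1, th R.l)⟩

def iw (ρ : ℕ) : WD := ⟨ρ, {ρ}, ∅, none⟩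

def fw (k : ℕ) : WD := ⟨k, ∅, {0}, none⟩

/-- number of tokens of a zone (with its two control tokens) -/
def tok (z : ℕ) : ℕ := 2 + ∑ s ∈ Finset.range n.a, n.c0 z s

/-- number of words `tw` -/
def NT : ℕ := (∑ z ∈ Finset.range n.Zn, n.tok z) * n.Cyc - 7 * ∑ i ∈ Finset.range n.r, n.mult i

def WT : List WD := List.replicate n.NT n.tw

def WR : List WD := (List.range n.r).flatMap (fun i => List.replicate (n.mult i) (n.rw (n.rule i)))

def WI : List WD := (List.range n.Zn).flatMap (fun z =>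
  iw (z * n.zl) :: iw (z * n.zl + 1) ::
    (List.range n.a).flatMap (fun s => List.replicate (n.c0 z s) (iw (z * n.zl + th s))))

def WF : List WD := (List.range n.Zn).flatMap (fun z =>
  fw (n.P - 1 - z * n.zl) :: fw (n.P - 1 - (z * n.zl + 1)) ::
    (List.range n.a).flatMap (fun s =>
      List.replicate (n.cf z s) (fw (n.P - 1 - (z * n.zl + th s)))))

def W : List WD := n.WT ++ n.WR ++ n.WI ++ n.WF

def toInst : Inst := inst n.W n.E

structure Ok : Prop where
  Zn : 0 < n.Zn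
  rI : ∀ i < n.r, (n.rule i).i0 < (n.rule i).i1 ∧ (n.rule i).i1 < (n.rule i).i2 ∧
    (n.rule i).i2 < n.a
  rO : ∀ i < n.r, (n.rule i).o0 < (n.rule i).o1 ∧ (n.rule i).o1 < (n.rule i).o2 ∧
    (n.rule i).o2 < n.a
  rl : ∀ i < n.r, (n.rule i).l < n.a
  /-- the numbers of tokens of the initial and final markings agree -/
  cons : ∀ z < n.Zn, ∑ s ∈ Finset.range n.a, n.c0 z s = ∑ s ∈ Finset.range n.a, n.cf z s
  /-- there is enough room for all rules -/
  room : 2 * ∑ i ∈ Finset.range n.r, n.mult i ≤ n.Cyc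
  /-- the number `NT` is a true difference -/
  many : 7 * ∑ i ∈ Finset.range n.r, n.mult i ≤ (∑ z ∈ Finset.range n.Zn, n.tok z) * n.Cyc
  /-- positions are balanced -/
  bal : ∑ z ∈ Finset.range n.Zn, ∑ s ∈ Finset.range n.a, ((n.c0 z s : ℤ) - n.cf z s) * s +
    ∑ i ∈ Finset.range n.r, (n.mult i : ℤ) * (((n.rule i).o0 + (n.rule i).o1 + (n.rule i).o2 : ℤ) -
      ((n.rule i).i0 + (n.rule i).i1 + (n.rule i).i2)) = 0

/-- initial / final control tokens and tokens with tick `t` -/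
def Ic (t : ℕ) : ℕ := ∑ z ∈ Finset.range n.Zn, ((if t = z * n.zl then 1 else 0) +
  (if t = z * n.zl + 1 then 1 else 0) +
  ∑ s ∈ Finset.range n.a, if t = z * n.zl + th s then n.c0 z s else 0)

def Fc (t : ℕ) : ℕ := ∑ z ∈ Finset.range n.Zn, ((if t = n.Cyc * n.P + z * n.zl then 1 else 0) +
  (if t = n.Cyc * n.P + z * n.zl + 1 then 1 else 0) +
  ∑ s ∈ Finset.range n.a, if t = n.Cyc * n.P + z * n.zl + th s then n.cf z s else 0)

/-- number of letters `a` in tick `t` -/
def cA (tT : List ℕ) (tR : List (ℕ × ℕ)) (t : ℕ) : ℕ :=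
  n.Ic t + tT.countP (fun t0 => decide (t0 + n.P = t)) +
    tR.countP (fun p => decide (p.2 ≤ t ∧ t - p.2 ∈ (n.rw (n.rule p.1)).A))

/-- number of letters `z` in tick `t` -/
def cZ (tT : List ℕ) (tR : List (ℕ × ℕ)) (t : ℕ) : ℕ :=
  tT.count t + tR.countP (fun p => decide (p.2 ≤ t ∧ t - p.2 ∈ (n.rw (n.rule p.1)).Z)) + n.Fc t

/-- tight solution: start ticks `tT` of the words `tw`, and pairs (rule, start tick) -/
structure TPS (tT : List ℕ) (tR : List (ℕ × ℕ)) : Prop where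
  bT : ∀ t ∈ tT, t + n.P ≤ n.E
  bR : ∀ p ∈ tR, p.1 < n.r ∧ p.2 + (2 * n.P + 1) ≤ n.E
  bal : ∀ t, n.cA tT tR t = n.cZ tT tR t
  blk : ∀ p ∈ tR, n.cA tT tR (p.2 + th (n.rule p.1).l) = 0

end Net

/-! ## Token machines -/

/-- Token machine: states `< ns`, counters `< nc`, rules `i < r`: from state `rp i`, if counter
`rl i` is zero, move one token from counter `rx i` to counter `ry i` and go to state `rq i`.
`e` is a counter that always holds a token, `f` one that is always empty. -/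
structure Tok where
  (ns nc r p0 acc e f : ℕ)
  (rp rq rx ry rl : ℕ → ℕ)

namespace Tok

variable (T : Tok)

structure Ok : Prop where
  p0 : T.p0 < T.ns
  acc : T.acc < T.ns
  e : T.e < T.nc
  f : T.f < T.nc
  ef : T.e ≠ T.f
  rp : ∀ i < T.r, T.rp i < T.ns
  rq : ∀ i < T.r, T.rq i < T.ns
  rx : ∀ i < T.r, T.rx i < T.nc ∧ T.rx i ≠ T.f
  ry : ∀ i < T.r, T.ry i < T.nc ∧ T.ry i ≠ T.f
  rl : ∀ i < T.r, T.rl i < T.nc ∧ T.rl i ≠ T.rx i ∧ T.rl i ≠ T.ry i
  xe : ∀ i < T.r, (T.rx i = T.e ↔ T.ry i = T.e)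

/-- one step by rule `i` -/
def Step (i : ℕ) (C C' : ℕ × (ℕ → ℕ)) : Prop :=
  i < T.r ∧ C.1 = T.rp i ∧ 0 < C.2 (T.rx i) ∧ C.2 (T.rl i) = 0 ∧ C'.1 = T.rq i ∧
    C'.2 = fun s => C.2 s - (if s = T.rx i then 1 else 0) + (if s = T.ry i then 1 else 0)

inductive Run : ℕ → ℕ × (ℕ → ℕ) → ℕ × (ℕ → ℕ) → Prop
  | refl (C : ℕ × (ℕ → ℕ)) : Run 0 C C
  | step (n i : ℕ) (C C' C'' : ℕ × (ℕ → ℕ)) (h : T.Step i C C') (h' : Run n C' C'') :
      Run (n + 1) C C''

/-- The net of a token machine: place `0` is marked in the forward direction, place `1` in the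
backward direction, `2 + p` is state `p`, `2 + ns + x` is counter `x`. Rules `2 i`, `2 i + 1` are
rule `i` forward and backward, rule `2 r` changes the direction in the accepting state. -/
def net (c0 : ℕ → ℕ) (N : ℕ) : Net where
  a := 2 + T.ns + T.nc
  Zn := T.r + 1
  r := 2 * T.r + 1
  rule := fun i =>
    if i = 2 * T.r then
      ⟨0, 2 + T.acc, 2 + T.ns + T.e, 1, 2 + T.acc, 2 + T.ns + T.e, 2 + T.ns + T.f⟩
    else if i % 2 = 0 then
      ⟨0, 2 + T.rp (i / 2), 2 + T.ns + T.rx (i / 2), 0, 2 + T.rq (i / 2),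
        2 + T.ns + T.ry (i / 2), 2 + T.ns + T.rl (i / 2)⟩
    else
      ⟨1, 2 + T.rq (i / 2), 2 + T.ns + T.ry (i / 2), 1, 2 + T.rp (i / 2),
        2 + T.ns + T.rx (i / 2), 2 + T.ns + T.rl (i / 2)⟩
  mult := fun i => if i = 2 * T.r then 1 else N
  c0 := fun z s =>
    if z = 0 then (if s = 0 then 1 else if s = 1 then 0 else if s < 2 + T.ns then
      (if s = 2 + T.p0 then 1 else 0) else c0 (s - (2 + T.ns)))
    else (if s = 0 ∨ s = 1 ∨ s = 2 + T.rp (z - 1) ∨ s = 2 + T.ns + T.rx (z - 1) then 1 else 0)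
  cf := fun z s =>
    if z = 0 then (if s = 0 then 0 else if s = 1 then 1 else if s < 2 + T.ns then
      (if s = 2 + T.p0 then 1 else 0) else c0 (s - (2 + T.ns)))
    else (if s = 0 ∨ s = 1 ∨ s = 2 + T.rp (z - 1) ∨ s = 2 + T.ns + T.rx (z - 1) then 1 else 0)
  Cyc := 2 * (2 * T.r * N + 1)

end Tok

/-! ## From Turing machines to token machines -/

/-- code of a control state -/
def sc (B Q ty d j q g h : ℕ) : ℕ := ty + 8 * (d + 2 * (g + B * (h + B * (q + Q * j))))

/-- bounds for the states and symbols of a machine -/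
structure BOk (δ : NTM) (B Q : ℕ) : Prop where
  B4 : 4 ≤ B
  Q2 : 2 ≤ Q
  st : ∀ t ∈ δ, t.1 < Q ∧ t.2.2.1 < Q
  sy : ∀ t ∈ δ, t.2.1 + 1 < B ∧ t.2.2.2.1 + 1 < B

/-- the five numbers `(p, q, x, y, l)` of rule number `i` of the token machine -/
def ruleV (δ : NTM) (B Q k i : ℕ) : ℕ × ℕ × ℕ × ℕ × ℕ :=
  let ty := i % 16
  let d := i / 16 % 2
  let g := i / 32 % B
  let h := i / (32 * B) % B
  let q := i / (32 * B * B) % Q
  let j := i / (32 * B * B * Q) % k
  let t := i / (32 * B * B * Q * k)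
  let X := 2 * k
  let R := 2 * k + 1
  let e := 2 * k + 2
  let f := 2 * k + 3
  let bh := 2 * j + d
  let ah := 2 * j + (1 - d)
  let dead := (sc B Q 7 0 0 0 0 0, sc B Q 7 0 0 0 0 0, e, e, f)
  if ty = 0 then (match δ[t]? with
    | none => dead
    | some (q1, g1, q2, g2, right) =>
      (sc B Q 0 0 j q1 (g1 + 1) 0, sc B Q 1 (if right then 0 else 1) j q2 (g2 + 1) 0, e, e, f))
  else if ty = 1 then (sc B Q 1 d j q g 0, sc B Q 1 d j q g (B - 1), bh, X, f)
  else if ty = 2 then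
    (if 1 ≤ h then (sc B Q 1 d j q g h, sc B Q 1 d j q g (h - 1), R, X, f) else dead)
  else if ty = 3 then (sc B Q 1 d j q g 0, sc B Q 2 d j q g 0, e, e, bh)
  else if ty = 4 then (sc B Q 2 d j q g 0, sc B Q 2 d j q g 0, X, bh, f)
  else if ty = 5 then (sc B Q 2 d j q g 0, sc B Q 3 d j q g 0, e, e, X)
  else if ty = 6 then
    (if 1 ≤ g then (sc B Q 3 d j q g 0, sc B Q 3 d j q (g - 1) 0, R, bh, f) else dead)
  else if ty = 7 then (sc B Q 3 d j q 0 0, sc B Q 4 d j q 0 0, e, e, f)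
  else if ty = 8 then
    (if h + 1 < B then (sc B Q 4 d j q 0 h, sc B Q 4 d j q 0 (h + 1), ah, R, f) else dead)
  else if ty = 9 then (sc B Q 4 d j q 0 (B - 1), sc B Q 4 d j q 0 0, ah, X, f)
  else if ty = 10 then
    (if 1 ≤ h then (sc B Q 4 d j q 0 h, sc B Q 5 d j q 0 h, e, e, ah) else dead)
  else if ty = 11 then
    (if d = 0 then
      (if j + 1 < k then (sc B Q 4 0 j q 0 0, sc B Q 4 0 (j + 1) q 0 0, e, e, ah) else dead)
    else (if 1 ≤ j then (sc B Q 4 1 j q 0 0, sc B Q 4 1 (j - 1) q 0 0, e, e, ah) else dead))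
  else if ty = 12 then (sc B Q 5 d j q 0 h, sc B Q 5 d j q 0 h, X, ah, f)
  else if ty = 13 then (sc B Q 5 d j q 0 h, sc B Q 0 0 j q h 0, e, e, X)
  else if ty = 14 then (sc B Q 0 0 j 1 g 0, sc B Q 6 0 0 0 0 0, e, e, f)
  else dead

/-- the token machine with `k` blocks; `g0` is the first tape symbol -/
def tokV (δ : NTM) (B Q k g0 : ℕ) : Tok where
  ns := 16 * B * B * Q * k
  nc := 2 * k + 4
  r := 32 * B * B * Q * k * (δ.length + 1)
  p0 := sc B Q 0 0 0 0 (g0 + 1) 0
  acc := sc B Q 6 0 0 0 0 0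
  e := 2 * k + 2
  f := 2 * k + 3
  rp := fun i => (ruleV δ B Q k i).1
  rq := fun i => (ruleV δ B Q k i).2.1
  rx := fun i => (ruleV δ B Q k i).2.2.1
  ry := fun i => (ruleV δ B Q k i).2.2.2.1
  rl := fun i => (ruleV δ B Q k i).2.2.2.2

/-- value of the cells `s, …, s + n - 1` of a tape, in base `B` with digits `symbol + 1` -/
def encT (B : ℕ) (tape : ℕ → ℕ) (s n : ℕ) : ℕ :=
  ∑ i ∈ Finset.range n, (tape (s + i) + 1) * B ^ i

/-- initial values of the counters: block length `ℓ`, `R0` tokens in the reservoir -/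
def c0V (B k ℓ R0 : ℕ) (tape : ℕ → ℕ) (s : ℕ) : ℕ :=
  if s < 2 * k then
    (if s = 1 then encT B tape 1 (ℓ - 1) else if s % 2 = 1 then encT B tape (s / 2 * ℓ) ℓ else 0)
  else if s = 2 * k + 1 then R0
  else if s = 2 * k + 2 then 1
  else 0

/-- the instance of the reduction: input `x`, `k` blocks, padding parameter `N` -/
def theInst (δ : NTM) (B Q c k N : ℕ) (x : List Bool) : Inst :=
  ((tokV δ B Q k (tape0 x 0)).net
    (c0V B k (c * (x.length + 1) / k + 1) ((2 * k + 3) * B * N) (tape0 x))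
    (20 * B * N * (N + 1))).toInst

/-- padded input words -/
def padw (k N : ℕ) (x : List Bool) : List Bool :=
  List.replicate k true ++ false :: (List.replicate N true ++ false :: x)

end Pool.Agent.helper66.JS
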