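import Pool.Agent.helper66.JS.Defs

/-!
# Auxiliary definitions for the proofs
-/

set_option autoImplicit false

namespace Pool.Agent.helper66.JS

open Turing

/-! ## Executing runs of a net -/

/-- marking after a list of rules -/
def fireL (rule : ℕ → Rule) (m : ℕ → ℕ) (is : List ℕ) : ℕ → ℕ :=
  is.foldl (fun m i => (rule i).fire m) m

namespace Net

variable (n : Net) (rs : ℕ → List ℕ)

/-- marking of zone `z` in round `c`: the rules of `rs z` are executed in the rounds
`0, 2, 4, …` -/
def mrk (z c : ℕ) : ℕ → ℕ := fireL n.rule (n.c0 z) ((rs z).take ((c + 1) / 2))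

/-- a token of place `s` is taken by a rule in round `c` -/
def taken (z c s : ℕ) : Prop :=
  c % 2 = 0 ∧ ∃ i, (rs z)[c / 2]? = some i ∧
    (s = (n.rule i).i0 ∨ s = (n.rule i).i1 ∨ s = (n.rule i).i2)

open Classical in
/-- the words `tw` with their start ticks -/
noncomputable def ST : List (WD × ℕ) :=
  (List.range n.Zn).flatMap (fun z => (List.range n.Cyc).flatMap (fun c =>
    (if c / 2 < (rs z).length then []
      else [(n.tw, c * n.P + z * n.zl), (n.tw, c * n.P + z * n.zl + 1)]) ++
    (List.range n.a).flatMap (fun s => List.replicate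
      (n.mrk rs z c s - if n.taken rs z c s then 1 else 0)
      (n.tw, c * n.P + z * n.zl + th s))))

/-- the rule words with their start ticks -/
def SR : List (WD × ℕ) :=
  (List.range n.Zn).flatMap (fun z => (List.range (rs z).length).map (fun k =>
    (n.rw (n.rule ((rs z).getD k 0)), 2 * k * n.P + z * n.zl)))

def SI : List (WD × ℕ) := n.WI.map (fun w => (w, 0))

def SF : List (WD × ℕ) := n.WF.map (fun w => (w, n.E - w.K))

noncomputable def S : List (WD × ℕ) := n.ST rs ++ n.SR rs ++ n.SI ++ n.SF

open Classical in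
/-- blocked ticks -/
noncomputable def zs (t : ℕ) : Bool :=
  decide (∃ z < n.Zn, ∃ k < (rs z).length,
    t = 2 * k * n.P + z * n.zl + th (n.rule ((rs z).getD k 0)).l)

/-- `rs` gives runs of all zones using every rule the right number of times -/
structure IsRuns : Prop where
  lt : ∀ z < n.Zn, ∀ i ∈ rs z, i < n.r
  run : ∀ z < n.Zn, ∃ m', Fires n.rule (n.c0 z) (rs z) m' ∧ ∀ s < n.a, m' s = n.cf z s
  cnt : ∀ i < n.r, ∑ z ∈ Finset.range n.Zn, (rs z).count i = n.mult i

end Net

/-! ## Tapes in blocks -/

/-- the symbols left (`s = 0`) or right (`s = 1`) of the head, nearest first, on a tape with `M`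
cells -/
def side (M s : ℕ) (C : Conf) : List ℕ :=
  if s = 0 then (List.range C.pos).reverse.map C.tape
  else (List.range' (C.pos + 1) (M - (C.pos + 1))).map C.tape

/-- concatenation of blocks, in the order seen from the head -/
def flat (k s : ℕ) (S : ℕ → List ℕ) : List ℕ :=
  if s = 0 then (List.range k).reverse.flatMap S else (List.range k).flatMap S

def upd (S : ℕ → ℕ → List ℕ) (s i : ℕ) (l : List ℕ) : ℕ → ℕ → List ℕ :=
  Function.update S s (Function.update (S s) i l)

/-- The configuration `C` (on `k * ℓ` cells, head in block `j`) is represented by the lists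
`S s i` (side `s`, block `i`). -/
structure Rep (k ℓ : ℕ) (C : Conf) (j : ℕ) (S : ℕ → ℕ → List ℕ) : Prop where
  hj : j < k
  pos : C.pos < k * ℓ
  fl : ∀ s < 2, flat k s (S s) = side (k * ℓ) s C
  E0 : ∀ i, j < i → i < k → S 0 i = []
  E1 : ∀ i < j, S 1 i = []
  len : ∀ i < k, (S 0 i).length + (S 1 i).length + (if i = j then 1 else 0) = ℓ

/-- Intermediate situation in a step of `C` which writes `g` and moves to the right (`d = 0`) or
left (`d = 1`): `g` is already pushed on side `d`, the new current symbol is not yet popped from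
side `1 - d`; the head is in block `i`. -/
structure Mid (k ℓ : ℕ) (C : Conf) (d g i : ℕ) (S : ℕ → ℕ → List ℕ) : Prop where
  hi : i < k
  pos : C.pos < k * ℓ
  fd : flat k d (S d) = g :: side (k * ℓ) d C
  fo : flat k (1 - d) (S (1 - d)) = side (k * ℓ) (1 - d) C
  E0 : ∀ i', i < i' → i' < k → S 0 i' = []
  E1 : ∀ i' < i, S 1 i' = []
  len : ∀ i' < k, (S 0 i').length + (S 1 i').length = ℓ

/-- value of a list of symbols, in base `B` with digits `symbol + 1` -/
def encL (B : ℕ) : List ℕ → ℕ
  | [] => 0
  | g :: l => (g + 1) + B * encL B l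

/-- the counters `2 i + s` hold the lists `S s i` -/
def CR (B k : ℕ) (S : ℕ → ℕ → List ℕ) (c : ℕ → ℕ) : Prop :=
  ∀ s < 2, ∀ i < k, c (2 * i + s) = encL B (S s i)

/-- initial lists -/
def S0 (ℓ : ℕ) (tape : ℕ → ℕ) (s i : ℕ) : List ℕ :=
  if s = 0 then [] else if i = 0 then (List.range' 1 (ℓ - 1)).map tape
  else (List.range' (i * ℓ) ℓ).map tape

/-! ## Time bounded computations -/

/-- On every `a ∈ dom`, a machine transforms the word `ea a` into `eb a` in time at most `T a`. -/
def Cmp {α : Type} (dom : Set α) (ea eb : α → List Bool) (T : α → ℕ) : Prop :=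
  ∃ (tm : FinTM2) (ei : tm.Γ tm.k₀ ≃ Bool) (eo : tm.Γ tm.k₁ ≃ Bool), ∀ a ∈ dom,
    Nonempty (TM2OutputsInTime tm ((ea a).map ei.symm) (some ((eb a).map eo.symm)) (T a))

end Pool.Agent.helper66.JS
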