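import Pool.Agent.helper66.JS.Problem2
import Pool.Agent.helper66.JS.Defs2

/-!
# Definitions for the exact characterization
-/

set_option autoImplicit false

namespace Pool.Agent.helper66.JS

open Turing

/-! ## Counter machines with simultaneous zero tests -/

/-- An operation of a counter machine: the counters in `Z` must be zero; then nothing
(`kind = 0`), increment (`kind = 1`) or decrement (`kind = 2`) of the counter `j`. -/
structure Op where
  kind : ℕ
  j : ℕ
  Z : List ℕ

def Op.Ok (o : Op) (c c' : ℕ → ℕ) : Prop :=
  (∀ j ∈ o.Z, c j = 0) ∧ ((o.kind = 0 ∧ c' = c) ∨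
    (o.kind = 1 ∧ c' = Function.update c o.j (c o.j + 1)) ∨
    (o.kind = 2 ∧ 0 < c o.j ∧ c' = Function.update c o.j (c o.j - 1)))

/-- Runs of `n` steps of a counter machine in which all counters stay below `bd`. -/
inductive CRun {σ : Type} (M : List (σ × Op × σ)) (bd : ℕ) : ℕ → σ × (ℕ → ℕ) → σ × (ℕ → ℕ) → Prop
  | refl (z : σ × (ℕ → ℕ)) : CRun M bd 0 z z
  | step (n : ℕ) (p q : σ) (o : Op) (c c' : ℕ → ℕ) (z : σ × (ℕ → ℕ)) (hM : (p, o, q) ∈ M)
      (ho : o.Ok c c') (hb : ∀ j, c' j < bd) (h : CRun M bd n (q, c') z) :
      CRun M bd (n + 1) (p, c) z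

/-! ## Sweeping machines -/

section ntm

variable {σ : Type} [Encodable σ]

/-- code of the state for going back to cell 0 and continuing in state `p` -/
def cr (p : σ) : ℕ := 2 + 2 * Encodable.encode p

/-- code of the state for sweeping to the right with transition number `t`, pending bit `e`, current
counter `i` -/
def cs (t e i : ℕ) : ℕ := 3 + 2 * Nat.pair t (Nat.pair e i)

/-- transitions for the sweep of the transition number `t` of the counter machine, which executes
`o` and leads to state `q` -/
def sweepT (R t : ℕ) (o : Op) (q : σ) : NTM :=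
  (List.range 2).flatMap (fun e => (List.range R).flatMap (fun i => (List.range 2).flatMap (fun g =>
    if g = 1 ∧ i ∈ o.Z then []
    else if e = 1 ∧ i = o.j ∧ o.kind = 1 then [(cs t e i, g, cs t g ((i + 1) % R), 1 - g, true)]
    else if e = 1 ∧ i = o.j ∧ o.kind = 2 then
      [(cs t e i, g, cs t (1 - g) ((i + 1) % R), 1 - g, true)]
    else [(cs t e i, g, cs t e ((i + 1) % R), g, true)])))
  ++ (List.range 2).flatMap (fun e => if e = 0 ∨ o.kind = 0 then [(cs t e 0, 2, cr q, 2, false)]
    else [])

/-- The nondeterministic one-tape machine which simulates the counter machine `M`: cell `0` is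
marked by the symbol `3`, cell `1 + i` holds bit number `i / R` of the counter `i % R`. -/
def ntmOf (M : List (σ × Op × σ)) (R : ℕ) (p0 pa : σ) : NTM :=
  [(0, 0, cr p0, 3, true), (0, 1, cr p0, 3, true), (cr pa, 3, 1, 3, true)] ++
  (p0 :: M.map (fun t => t.2.2)).flatMap (fun q => (List.range 3).map (fun g =>
    (cr q, g, cr q, g, false))) ++
  M.zipIdx.flatMap (fun u => (cr u.1.1, 3, cs u.2 1 0, 3, true) ::
    sweepT R u.2 u.1.2.1 u.1.2.2)

end ntm

/-- counters of the word `x` -/
def cx (R : ℕ) (x : List Bool) (j : ℕ) : ℕ :=
  ∑ i ∈ Finset.range (x.length - 1),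
    if i % R = j then (x.getD (i + 1) false).toNat * 2 ^ (i / R) else 0

/-! ## Time-stepped job shop -/

/-- the unit operations of a job: machine, and whether it is the first unit of its operation -/
def units (J : Job) : List (ℕ × Bool) :=
  J.flatMap (fun o => (List.range o.2).map (fun d => (o.1, decide (d = 0))))

/-- current unit of job `ν`, all jobs at the positions `p` -/
def cur (js : List Job) (p : ℕ → ℕ) (ν : ℕ) : ℕ × Bool :=
  (units (js.getD ν [])).getD (p ν) (0, true)

/-- One time unit: some jobs move by one unit. -/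
structure JStep (js : List Job) (p p' : ℕ → ℕ) : Prop where
  mv : ∀ ν < js.length, p' ν = p ν ∨ (p' ν = p ν + 1 ∧ p ν < (units (js.getD ν [])).length)
  ne : ∀ ν < js.length, ∀ ν' < js.length, ν ≠ ν' → p' ν ≠ p ν → p' ν' ≠ p ν' →
    (cur js p ν).1 ≠ (cur js p ν').1
  ins : ∀ ν < js.length, p ν < (units (js.getD ν [])).length → (cur js p ν).2 = false →
    p' ν ≠ p ν

/-- All jobs can be finished within `L` time units. -/
def JRun (js : List Job) (L : ℕ) : Prop :=
  ∃ p : ℕ → ℕ → ℕ, (∀ ν < js.length, p 0 ν = 0) ∧ (∀ t < L, JStep js (p t) (p (t + 1))) ∧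
    ∀ ν < js.length, p L ν = (units (js.getD ν [])).length

/-! ## The counter machine for the table `T` of job types -/

section prog

variable (T : List Job)

/-- the maximal number of units -/
def um : ℕ := (T.map (fun J => (units J).length)).foldr max 0

/-- The counter for the jobs of type `i % r` at position `i / r`, where `r = T.length`; the counter
number `r` is the remaining time. -/
def ix (i : ℕ) : ℕ := if i < T.length then i else i + 1

/-- unit number `i / r` of type `i % r` -/
def un (i : ℕ) : Option (ℕ × Bool) :=
  (units (T.getD (i % T.length) []))[i / T.length]?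

/-- choices for machine `μ`: `0` nothing, `i + 1` process a job of type `i % r` at position
`i / r` -/
def chs (μ : ℕ) : List ℕ :=
  0 :: ((List.range (T.length * um T)).filter (fun i => (un T i).map Prod.fst = some μ)).map
    (· + 1)

def decop (a : ℕ) : Op := if a = 0 then ⟨0, 0, []⟩ else ⟨2, ix T (a - 1), []⟩

def incop (a : ℕ) (Z : List ℕ) : Op :=
  if a = 0 then ⟨0, 0, Z⟩ else ⟨1, ix T (a - 1 + T.length), Z⟩

/-- the counters of jobs in the interior of an operation -/
def Zins : List ℕ :=
  ((List.range (T.length * um T)).filter (fun i => (un T i).map Prod.snd = some false)).map (ix T)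

/-- the counters of unfinished jobs -/
def Zend : List ℕ :=
  ((List.range (T.length * um T)).filter (fun i => (un T i).isSome)).map (ix T)

/-- states: phase and the choices for the three machines -/
abbrev PSt := ℕ × ℕ × ℕ × ℕ

/-- the counter machine for the table `T`, with `R` counters -/
def prog (R : ℕ) : List (PSt × Op × PSt) :=
  [((0, 0, 0, 0), ⟨0, 0, List.range' (T.length + 1) (R - (T.length + 1))⟩, (1, 0, 0, 0)),
   ((1, 0, 0, 0), ⟨0, 0, Zend T⟩, (8, 0, 0, 0)),
   ((7, 0, 0, 0), ⟨2, T.length, []⟩, (1, 0, 0, 0))] ++
  (chs T 0).flatMap (fun a =>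
    ((1, 0, 0, 0), decop T a, (2, a, 0, 0)) ::
    (chs T 1).flatMap (fun b =>
      ((2, a, 0, 0), decop T b, (3, a, b, 0)) ::
      (chs T 2).flatMap (fun c =>
        [((3, a, b, 0), decop T c, (4, a, b, c)),
         ((4, a, b, c), incop T a (Zins T), (5, 0, b, c)),
         ((5, 0, b, c), incop T b [], (6, 0, 0, c)),
         ((6, 0, 0, c), incop T c [], (7, 0, 0, 0))])))

end prog

/-- initial counters: the multiplicities of the types, and the time `L` -/
def c0J (T js : List Job) (L : ℕ) (j : ℕ) : ℕ :=
  if j < T.length then js.count (T.getD j []) else if j = T.length then L else 0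

/-- counters for the jobs `js` at positions `p` with remaining time `L` -/
def cJ (T js : List Job) (p : ℕ → ℕ) (L : ℕ) (j : ℕ) : ℕ :=
  if j = T.length then L
  else ((List.range js.length).filter (fun ν =>
    T.idxOf (js.getD ν []) + T.length * p ν = (if j < T.length then j else j - 1))).length

/-! ## The input words -/

/-- the bound of all counters for an instance whose code has length `n` -/
def capJ (k n : ℕ) : ℕ := (k + 1) * (n + 1)

/-- number of bits -/
def ellJ (k n : ℕ) : ℕ := Nat.log 2 (capJ k n) + 1

/-- The word for the counter machine. -/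
def wdJ (R : ℕ) (T : List Job) (k : ℕ) (I : Inst) : List Bool :=
  false :: (List.range (R * ellJ k (N487b59b3.bitEncode I).length)).map (fun i =>
    Nat.testBit (c0J T I.1 (min I.2 (capJ k (N487b59b3.bitEncode I).length)) (i % R)) (i / R))

/-- the header: some word coding `k, R, T` -/
def ublk (l : List ℕ) : List Bool := l.flatMap (fun n => List.replicate n true ++ [false])

/-- word coding a transition table -/
def nums (δ : NTM) : List ℕ :=
  δ.flatMap (fun t => [t.1, t.2.1, t.2.2.1, t.2.2.2.1, t.2.2.2.2.toNat])

/-- constant part of the input of the universal reduction -/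
def hdrU (δ : NTM) (B Q c k : ℕ) : List Bool := ublk ([B, Q, c, k, δ.length] ++ nums δ)

end Pool.Agent.helper66.JS
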