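import Pool.Agent.helper66.JS.Defs2

set_option autoImplicit false

namespace Pool.Agent.helper66.JS

open Finset

section B1
variable {ι : Type} [Fintype ι] [DecidableEq ι] (p s : ι → ℕ) (L : ℕ)
  (hd : ∀ i j, i ≠ j → 0 < p i → 0 < p j → s i + p i ≤ s j ∨ s j + p j ≤ s i)
  (hb : ∀ i, 0 < p i → s i + p i ≤ L) (hs : ∑ i, p i = L)

omit [Fintype ι] in
include hd in
private lemma disj (K : Finset ι) :
    (K : Set ι).PairwiseDisjoint (fun i => Finset.Ico (s i) (s i + p i)) := by
  intro i _ j _ hij
  rw [Function.onFun, Finset.disjoint_left]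
  intro x hx hx'
  rw [Finset.mem_Ico] at hx hx'
  have := hd i j hij (by omega) (by omega)
  omega

omit [Fintype ι] in
include hd in
private lemma card_union (K : Finset ι) :
    (K.biUnion (fun i => Finset.Ico (s i) (s i + p i))).card = ∑ i ∈ K, p i := by
  rw [Finset.card_biUnion (fun i hi j hj hij => disj p s hd K hi hj hij)]
  simp

include hd hb hs in
theorem tile_cover (x : ℕ) (hx : x < L) : ∃ i, s i ≤ x ∧ x < s i + p i := by
  have h1 : (Finset.univ.biUnion (fun i => Finset.Ico (s i) (s i + p i))) ⊆ Finset.range L := by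
    intro y hy
    simp only [Finset.mem_biUnion, Finset.mem_univ, true_and, Finset.mem_Ico] at hy
    obtain ⟨i, h1, h2⟩ := hy
    have := hb i (by omega)
    rw [Finset.mem_range]; omega
  have h2 := Finset.eq_of_subset_of_card_le h1 (by
    rw [card_union p s hd, hs, Finset.card_range])
  have h3 : x ∈ Finset.univ.biUnion (fun i => Finset.Ico (s i) (s i + p i)) := by
    rw [h2]; exact Finset.mem_range.2 hx
  simp only [Finset.mem_biUnion, Finset.mem_univ, true_and, Finset.mem_Ico] at h3
  exact h3

include hd hb hs in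
theorem tile_le (K : Finset ι) (x : ℕ) (hx : x ≤ L) (h : ∀ i, i ∉ K → 0 < p i → x ≤ s i) :
    x ≤ ∑ i ∈ K, p i := by
  rw [← card_union p s hd K]
  have h1 : Finset.range x ⊆ K.biUnion (fun i => Finset.Ico (s i) (s i + p i)) := by
    intro y hy
    rw [Finset.mem_range] at hy
    obtain ⟨i, h1, h2⟩ := tile_cover p s L hd hb hs y (by omega)
    rw [Finset.mem_biUnion]
    refine ⟨i, ?_, Finset.mem_Ico.2 ⟨h1, h2⟩⟩
    by_contra hi
    have := h i hi (by omega)
    omega
  have := Finset.card_le_card h1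
  rwa [Finset.card_range] at this

include hd hb hs in
theorem tile_start (K : Finset ι) (t : ℕ) (h : ∀ i, i ∉ K → 0 < p i → t ≤ s i)
    (hK : ∀ i ∈ K, 0 < p i → ∑ i ∈ K, p i < t + p i) :
    ∀ i, i ∉ K → 0 < p i → ∑ i ∈ K, p i ≤ s i := by
  intro i0 hi0 hp0
  by_contra hlt
  push_neg at hlt
  -- earliest operation outside K
  obtain ⟨i, hi, hmin⟩ := Finset.exists_min_image
    (Finset.univ.filter (fun i => i ∉ K ∧ 0 < p i)) s ⟨i0, by simp [hi0, hp0]⟩
  simp only [Finset.mem_filter, Finset.mem_univ, true_and] at hi hmin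
  have hsi : s i < ∑ i ∈ K, p i := lt_of_le_of_lt (hmin i0 ⟨hi0, hp0⟩) hlt
  have hti := h i hi.1 hi.2
  have hbi := hb i hi.2
  -- operations of K completed by time s i
  set K' := K.filter (fun j => s j + p j ≤ s i) with hK'
  have hcov : s i ≤ ∑ j ∈ K', p j := by
    rw [← card_union p s hd K']
    have h1 : Finset.range (s i) ⊆ K'.biUnion (fun i => Finset.Ico (s i) (s i + p i)) := by
      intro y hy
      rw [Finset.mem_range] at hy
      obtain ⟨j, h1, h2⟩ := tile_cover p s L hd hb hs y (by omega)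
      rw [Finset.mem_biUnion]
      refine ⟨j, ?_, Finset.mem_Ico.2 ⟨h1, h2⟩⟩
      have hjK : j ∈ K := by
        by_contra hj
        have := hmin j ⟨hj, by omega⟩
        omega
      rw [hK', Finset.mem_filter]
      refine ⟨hjK, ?_⟩
      have hne : j ≠ i := fun e => hi.1 (e ▸ hjK)
      have := hd j i hne (by omega) hi.2
      omega
    have := Finset.card_le_card h1
    rwa [Finset.card_range] at this
  by_cases hall : ∀ j ∈ K, 0 < p j → s j + p j ≤ s i
  · have hle : ∑ j ∈ K, p j ≤ s i := by
      rw [← card_union p s hd K]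
      have h1 : K.biUnion (fun i => Finset.Ico (s i) (s i + p i)) ⊆ Finset.range (s i) := by
        intro y hy
        simp only [Finset.mem_biUnion, Finset.mem_Ico] at hy
        obtain ⟨j, hj, h1, h2⟩ := hy
        have := hall j hj (by omega)
        rw [Finset.mem_range]; omega
      have := Finset.card_le_card h1
      rwa [Finset.card_range] at this
    omega
  · push_neg at hall
    obtain ⟨j, hjK, hpj, hj⟩ := hall
    have hjK' : j ∉ K' := fun h' => by
      rw [hK', Finset.mem_filter] at h'
      omega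
    have h1 : ∑ i ∈ insert j K', p i ≤ ∑ i ∈ K, p i :=
      Finset.sum_le_sum_of_subset (Finset.insert_subset hjK (Finset.filter_subset _ _))
    rw [Finset.sum_insert hjK'] at h1
    have := hK j hjK hpj
    omega

include hd hb hs in
theorem tile_next (K : Finset ι) (t : ℕ) (h : ∀ i, i ∉ K → 0 < p i → t ≤ s i)
    (hK : ∀ i ∈ K, 0 < p i → ∑ i ∈ K, p i < t + p i) (hL : ∑ i ∈ K, p i < L) :
    ∃ i, i ∉ K ∧ 0 < p i ∧ s i = ∑ i ∈ K, p i := by
  by_contra hne
  push_neg at hne
  have h1 := tile_start p s L hd hb hs K t h hK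
  have h2 := tile_le p s L hd hb hs K (∑ i ∈ K, p i + 1) hL (fun i hi hp => by
    have := h1 i hi hp
    have := hne i hi hp
    omega)
  omega

end B1

end Pool.Agent.helper66.JS
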