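import Pool.Agent.helper66.JS.B1

set_option autoImplicit false
set_option linter.unusedSectionVars false
set_option linter.unusedSimpArgs false

namespace Pool.Agent.helper66.JS

open Finset



namespace B2

/-! ### facts about letters -/

lemma pp_ge (x : Let) : 20 ≤ pp x := by cases x <;> decide

lemma uu_ge {x : Let} (h : 0 < uu x) : 20 ≤ uu x := by revert h; cases x <;> decide

lemma vv_ge {x : Let} (h : 0 < vv x) : 14 ≤ vv x := by revert h; cases x <;> decide

lemma f3_vv {x : Let} (h : f3 x = true) : 21 ≤ vv x := by revert h; cases x <;> decide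

lemma f2_uu {x : Let} (h : f2 x = true) : 20 ≤ uu x := by revert h; cases x <;> decide

lemma f2_or {x : Let} (h : 0 < uu x) : f2 x = true ∨ f3 x = true := by
  revert h; cases x <;> decide

lemma f3_or {x : Let} (h : 0 < vv x) : f2 x = true ∨ f3 x = true := by
  revert h; cases x <;> decide

def Aof : St → ℕ | .N1 => 26 | .Z1 => 25 | .X => 20 | .N2 => 50 | .Z2 => 49 | .F1 => 22 | .F2 => 0
def Bof : St → ℕ | .N1 => 48 | .Z1 => 49 | .X => 54 | .N2 => 24 | .Z2 => 25 | .F1 => 22 | .F2 => 0

lemma step_vals {S S' : St} {x : Let} (h : step S x = some S') :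
    Aof S + uu x = Aof S' + pp x ∧ Bof S + vv x = Bof S' + pp x := by
  revert h
  cases S <;> cases x <;> simp [step] <;> rintro rfl <;> decide

lemma run_append (S : St) (l l' : List Let) :
    run S (l ++ l') = (run S l).bind (fun S' => run S' l') := by
  induction l generalizing S with
  | nil => rfl
  | cons x l ih =>
    simp only [List.cons_append, run]
    cases h : step S x with
    | none => rfl
    | some S' => simp [ih]

lemma run_vals {S S' : St} {l : List Let} (h : run S l = some S') :
    Aof S + (l.map uu).sum = Aof S' + (l.map pp).sum ∧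
      Bof S + (l.map vv).sum = Bof S' + (l.map pp).sum := by
  induction l generalizing S with
  | nil => simp only [run, Option.some.injEq] at h; subst h; simp
  | cons x l ih =>
    simp only [run] at h
    cases h1 : step S x with
    | none => rw [h1] at h; simp at h
    | some S1 =>
      rw [h1] at h
      have h2 := ih (S := S1) (by simpa using h)
      have h3 := step_vals h1
      simp only [List.map_cons, List.sum_cons]
      omega

/-! ### the main argument -/

section
variable {Λ : Type} [Fintype Λ] [DecidableEq Λ] {kd : Λ → Let} {L : ℕ} {t1 t2 t3 : Λ → ℕ}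
  {s2 s3 : ℕ} (h : GS kd L t1 t2 t3 s2 s3) (h1 : ∑ x, pp (kd x) = L)
  (h2 : 26 + ∑ x, uu (kd x) = L) (h3 : 48 + ∑ x, vv (kd x) = L)

def SP (kd : Λ → Let) (l : List Λ) : ℕ := (l.map (fun x => pp (kd x))).sum
def SU (kd : Λ → Let) (l : List Λ) : ℕ := (l.map (fun x => uu (kd x))).sum
def SV (kd : Λ → Let) (l : List Λ) : ℕ := (l.map (fun x => vv (kd x))).sum

/-- placed letters: everything before time `SP l` on machine 0 -/
structure Pre (kd : Λ → Let) (t1 : Λ → ℕ) (l : List Λ) : Prop where
  nd : l.Nodup
  sorted : l.Pairwise (fun x y => t1 x < t1 y)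
  done : ∀ x ∈ l, t1 x + pp (kd x) ≤ SP kd l
  later : ∀ y, y ∉ l → SP kd l ≤ t1 y

include h in
lemma rel2 {x : Λ} (hx : 0 < uu (kd x)) : t1 x + pp (kd x) ≤ t2 x := by
  rcases f2_or hx with hf | hf
  · exact h.p2 x hf
  · have := h.p3 x hf
    have := h.q3 x hf hx
    omega

include h in
lemma rel3 {x : Λ} (hx : 0 < vv (kd x)) : t1 x + pp (kd x) ≤ t3 x := by
  rcases f3_or hx with hf | hf
  · have := h.p2 x hf
    have := h.q2 x hf hx
    omega
  · exact h.p3 x hf

def p2f (kd : Λ → Let) : Option Λ → ℕ | none => 26 | some x => uu (kd x)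
def p3f (kd : Λ → Let) : Option Λ → ℕ | none => 48 | some x => vv (kd x)
def sf (s0 : ℕ) (t : Λ → ℕ) : Option Λ → ℕ | none => s0 | some x => t x

def Kf (l : List Λ) : Finset (Option Λ) := insert none (l.toFinset.image some)

omit [Fintype Λ] in
lemma mem_Kf {l : List Λ} {x : Λ} : some x ∈ Kf l ↔ x ∈ l := by simp [Kf]

omit [Fintype Λ] in
lemma none_mem_Kf {l : List Λ} : (none : Option Λ) ∈ Kf l := by simp [Kf]

omit [Fintype Λ] in
lemma sum_Kf (f : Option Λ → ℕ) {l : List Λ} (hl : l.Nodup) :
    ∑ i ∈ Kf l, f i = f none + (l.map (fun x => f (some x))).sum := by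
  unfold Kf
  rw [Finset.sum_insert (by simp), Finset.sum_image (by simp), List.sum_toFinset _ hl]

include h in
lemma hd2 : ∀ i j, i ≠ j → 0 < p2f kd i → 0 < p2f kd j →
    sf s2 t2 i + p2f kd i ≤ sf s2 t2 j ∨ sf s2 t2 j + p2f kd j ≤ sf s2 t2 i := by
  intro i j hij hi hj
  cases i with
  | none =>
    cases j with
    | none => exact absurd rfl hij
    | some y =>
      have := h.g2 y hj
      simp only [sf, p2f] at *
      omega
  | some x =>
    cases j with
    | none =>
      have := h.g2 x hi
      simp only [sf, p2f] at *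
      omega
    | some y => exact h.d2 x y (fun e => hij (by rw [e])) hi hj

include h in
lemma hd3 : ∀ i j, i ≠ j → 0 < p3f kd i → 0 < p3f kd j →
    sf s3 t3 i + p3f kd i ≤ sf s3 t3 j ∨ sf s3 t3 j + p3f kd j ≤ sf s3 t3 i := by
  intro i j hij hi hj
  cases i with
  | none =>
    cases j with
    | none => exact absurd rfl hij
    | some y =>
      have := h.g3 y hj
      simp only [sf, p3f] at *
      omega
  | some x =>
    cases j with
    | none =>
      have := h.g3 x hi
      simp only [sf, p3f] at *
      omega
    | some y => exact h.d3 x y (fun e => hij (by rw [e])) hi hj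

include h in
lemma hb2 : ∀ i, 0 < p2f kd i → sf s2 t2 i + p2f kd i ≤ L := by
  intro i hi
  cases i with
  | none => exact h.bs2
  | some x => exact h.b2 x hi

include h in
lemma hb3 : ∀ i, 0 < p3f kd i → sf s3 t3 i + p3f kd i ≤ L := by
  intro i hi
  cases i with
  | none => exact h.bs3
  | some x => exact h.b3 x hi

include h2 in
lemma hs2 : ∑ i, p2f kd i = L := by
  rw [Fintype.sum_option]; exact h2

include h3 in
lemma hs3 : ∑ i, p3f kd i = L := by
  rw [Fintype.sum_option]; exact h3

include h2 in
lemma le2 {l : List Λ} (hl : l.Nodup) : 26 + SU kd l ≤ L := by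
  have := sum_Kf (p2f kd) hl
  have h' : ∑ i ∈ Kf l, p2f kd i ≤ ∑ i, p2f kd i :=
    Finset.sum_le_sum_of_subset (Finset.subset_univ _)
  rw [hs2 h2, this] at h'
  exact h'

include h3 in
lemma le3 {l : List Λ} (hl : l.Nodup) : 48 + SV kd l ≤ L := by
  have := sum_Kf (p3f kd) hl
  have h' : ∑ i ∈ Kf l, p3f kd i ≤ ∑ i, p3f kd i :=
    Finset.sum_le_sum_of_subset (Finset.subset_univ _)
  rw [hs3 h3, this] at h'
  exact h'

include h h1 in
/-- the next letter on machine 0 -/
lemma exists_next {l : List Λ} (hl : Pre kd t1 l) (hT : SP kd l < L) :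
    ∃ x, x ∉ l ∧ t1 x = SP kd l := by
  obtain ⟨x, hx1, hx2⟩ := tile_cover (fun x => pp (kd x)) t1 L
    (fun i j hij _ _ => h.d1 i j hij) (fun i _ => h.b1 i) h1 (SP kd l) hT
  have hxl : x ∉ l := fun hx => by
    have := hl.done x hx
    omega
  exact ⟨x, hxl, le_antisymm hx1 (hl.later x hxl)⟩

include h in
lemma next_pre {l : List Λ} (hl : Pre kd t1 l) {x : Λ} (hx : x ∉ l) (ht : t1 x = SP kd l) :
    Pre kd t1 (l ++ [x]) := by
  have hs : SP kd (l ++ [x]) = SP kd l + pp (kd x) := by simp [SP]
  constructor
  · rw [List.nodup_append]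
    refine ⟨hl.nd, by simp, ?_⟩
    intro a ha b hb
    simp only [List.mem_singleton] at hb
    subst hb
    exact fun e => hx (e ▸ ha)
  · rw [List.pairwise_append]
    refine ⟨hl.sorted, by simp, ?_⟩
    intro a ha b hb
    simp only [List.mem_singleton] at hb
    subst hb
    have := hl.done a ha
    have := pp_ge (kd a)
    omega
  · intro y hy
    rw [hs]
    rcases List.mem_append.1 hy with hy | hy
    · have := hl.done y hy; omega
    · simp only [List.mem_singleton] at hy
      subst hy; omega
  · intro y hy
    rw [hs]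
    simp only [List.mem_append, List.mem_singleton, not_or] at hy
    have h1 := hl.later y hy.1
    have h2 := h.d1 x y (fun e => hy.2 e.symm)
    have := pp_ge (kd y)
    omega

include h in
/-- other letters are later -/
lemma other {l : List Λ} (hl : Pre kd t1 l) {x : Λ} (hx : x ∉ l) (ht : t1 x = SP kd l) {y : Λ}
    (hy : y ∉ l) (hyx : y ≠ x) : SP kd l + pp (kd x) ≤ t1 y := by
  have := (next_pre h hl hx ht).later y (by simp [hy, hyx])
  have hs : SP kd (l ++ [x]) = SP kd l + pp (kd x) := by simp [SP]
  omega

include h h2 in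
lemma prim2 {l : List Λ} (hl : Pre kd t1 l) {x : Λ} (hx : x ∉ l) (ht : t1 x = SP kd l)
    (hα : 26 + SU kd l < SP kd l + pp (kd x) + 20) (hL : 26 + SU kd l < L) :
    f2 (kd x) = true ∧ t2 x = 26 + SU kd l ∧ SP kd l + pp (kd x) ≤ 26 + SU kd l := by
  have hsum : ∑ i ∈ Kf l, p2f kd i = 26 + SU kd l := sum_Kf (p2f kd) hl.nd
  obtain ⟨i, hi, hpi, hsi⟩ := tile_next (p2f kd) (sf s2 t2) L (hd2 h) (hb2 h) (hs2 h2) (Kf l)
    (SP kd l + pp (kd x)) (by
      intro i hi hpi
      cases i with
      | none => exact absurd none_mem_Kf hi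
      | some y =>
        have hy : y ∉ l := fun h' => hi (mem_Kf.2 h')
        have h5 := rel2 h (x := y) hpi
        by_cases hyx : y = x
        · subst hyx; simp only [sf]; omega
        · have := other h hl hx ht hy hyx
          simp only [sf]; omega) (by
      intro i hi hpi
      rw [hsum]
      cases i with
      | none => simp only [p2f]; omega
      | some y =>
        have := uu_ge (x := kd y) hpi
        simp only [p2f]; omega) (by rw [hsum]; exact hL)
  cases i with
  | none => exact absurd none_mem_Kf hi
  | some y =>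
    have hy : y ∉ l := fun h' => hi (mem_Kf.2 h')
    have h5 := rel2 h (x := y) hpi
    rw [hsum] at hsi
    simp only [sf] at hsi
    have hyx : y = x := by
      by_contra hyx
      have := other h hl hx ht hy hyx
      have := pp_ge (kd y)
      omega
    subst hyx
    simp only [p2f] at hpi
    refine ⟨?_, hsi, by omega⟩
    rcases f2_or hpi with hf | hf
    · exact hf
    · exfalso
      have := h.p3 y hf
      have := h.q3 y hf hpi
      have := f3_vv hf
      omega

include h h3 in
lemma prim3 {l : List Λ} (hl : Pre kd t1 l) {x : Λ} (hx : x ∉ l) (ht : t1 x = SP kd l)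
    (hα : 48 + SV kd l < SP kd l + pp (kd x) + 14) (hL : 48 + SV kd l < L) :
    f3 (kd x) = true ∧ t3 x = 48 + SV kd l ∧ SP kd l + pp (kd x) ≤ 48 + SV kd l ∨
    f2 (kd x) = true ∧ 0 < vv (kd x) ∧ t3 x = 48 + SV kd l ∧ SP kd l + pp (kd x) + 20 ≤
      48 + SV kd l := by
  have hsum : ∑ i ∈ Kf l, p3f kd i = 48 + SV kd l := sum_Kf (p3f kd) hl.nd
  obtain ⟨i, hi, hpi, hsi⟩ := tile_next (p3f kd) (sf s3 t3) L (hd3 h) (hb3 h) (hs3 h3) (Kf l)
    (SP kd l + pp (kd x)) (by
      intro i hi hpi
      cases i with
      | none => exact absurd none_mem_Kf hi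
      | some y =>
        have hy : y ∉ l := fun h' => hi (mem_Kf.2 h')
        have h5 := rel3 h (x := y) hpi
        by_cases hyx : y = x
        · subst hyx; simp only [sf]; omega
        · have := other h hl hx ht hy hyx
          simp only [sf]; omega) (by
      intro i hi hpi
      rw [hsum]
      cases i with
      | none => simp only [p3f]; omega
      | some y =>
        have := vv_ge (x := kd y) hpi
        simp only [p3f]; omega) (by rw [hsum]; exact hL)
  cases i with
  | none => exact absurd none_mem_Kf hi
  | some y =>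
    have hy : y ∉ l := fun h' => hi (mem_Kf.2 h')
    have h5 := rel3 h (x := y) hpi
    rw [hsum] at hsi
    simp only [sf] at hsi
    have hyx : y = x := by
      by_contra hyx
      have := other h hl hx ht hy hyx
      have := pp_ge (kd y)
      omega
    subst hyx
    simp only [p3f] at hpi
    rcases f3_or hpi with hf | hf
    · right
      have := h.p2 y hf
      have := h.q2 y hf hpi
      have := f2_uu hf
      exact ⟨hf, hpi, hsi, by omega⟩
    · left
      exact ⟨hf, hsi, by omega⟩

include h h1 h2 h3 in
lemma next_step {l : List Λ} (hl : Pre kd t1 l) {S : St} (hr : run .N1 (l.map kd) = some S)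
    (hS : S ≠ .F2) : ∃ x, x ∉ l ∧ t1 x = SP kd l ∧ ∃ S', step S (kd x) = some S' := by
  obtain ⟨hA, hB⟩ := run_vals hr
  have e1 : ((l.map kd).map pp).sum = SP kd l := by simp [SP, List.map_map]; rfl
  have e2 : ((l.map kd).map uu).sum = SU kd l := by simp [SU, List.map_map]; rfl
  have e3 : ((l.map kd).map vv).sum = SV kd l := by simp [SV, List.map_map]; rfl
  rw [e1, e2] at hA
  rw [e1, e3] at hB
  simp only [Aof, Bof] at hA hB
  have l2 := le2 h2 hl.nd
  have l3 := le3 h3 hl.nd
  have hT : SP kd l < L := by
    cases S <;> simp only [Aof, Bof] at hA hB <;> first | omega | exact absurd rfl hS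
  obtain ⟨x, hx, ht⟩ := exists_next h h1 hl hT
  refine ⟨x, hx, ht, ?_⟩
  have hp := pp_ge (kd x)
  have hl' := next_pre h hl hx ht
  have s1 : SP kd (l ++ [x]) = SP kd l + pp (kd x) := by simp [SP]
  have s2' : SU kd (l ++ [x]) = SU kd l + uu (kd x) := by simp [SU]
  have s3' : SV kd (l ++ [x]) = SV kd l + vv (kd x) := by simp [SV]
  have m2 := le2 h2 hl'.nd
  have m3 := le3 h3 hl'.nd
  -- mode 1: the next letter is an f2 letter
  have mode1 : ∀ A B, 26 + SU kd l = A + SP kd l → 48 + SV kd l = B + SP kd l → A ≤ 26 → A < B →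
      f2 (kd x) = true ∧ t2 x = 26 + SU kd l ∧ pp (kd x) ≤ A := by
    intro A B a b c d
    have := prim2 h h2 hl hx ht (by omega) (by omega)
    exact ⟨this.1, this.2.1, by omega⟩
  have mode2 : ∀ A B, 26 + SU kd l = A + SP kd l → 48 + SV kd l = B + SP kd l → B ≤ 25 → B < A →
      f3 (kd x) = true ∧ t3 x = 48 + SV kd l ∧ pp (kd x) ≤ B := by
    intro A B a b c d
    rcases prim3 h h3 hl hx ht (by omega) (by omega) with this | this
    · exact ⟨this.1, this.2.1, by omega⟩
    · omega
  -- exclusion of z in N1, Z1
  have noz : ∀ A, 26 + SU kd l = A + SP kd l → (48 + SV kd l = 74 - A + SP kd l) → 25 ≤ A →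
      A ≤ 26 → kd x = .z → False := by
    intro A a b c d hz
    obtain ⟨hf, ht2, hpA⟩ := mode1 A (74 - A) a b (by omega) (by omega)
    rw [hz] at s1 s2' s3'
    simp only [pp, uu, vv] at s1 s2' s3'
    obtain ⟨y, hy, hty⟩ := exists_next h h1 hl' (by omega)
    have hpy := pp_ge (kd y)
    obtain ⟨gf, gt2, gp⟩ := prim2 h h2 hl' hy hty (by omega) (by omega)
    have key := tile_le (p3f kd) (sf s3 t3) L (hd3 h) (hb3 h) (hs3 h3) (Kf l)
      (48 + SV kd l + 1) (by omega) (by
        intro i hi hpi
        cases i with
        | none => exact absurd none_mem_Kf hi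
        | some w =>
          have hw : w ∉ l := fun h' => hi (mem_Kf.2 h')
          simp only [sf]
          simp only [p3f] at hpi
          by_cases hwx : w = x
          · subst hwx
            have := h.q2 w hf hpi
            rw [hz] at this
            simp only [uu] at this
            omega
          · by_cases hwy : w = y
            · subst hwy
              have := h.q2 w gf hpi
              have := f2_uu gf
              omega
            · have := other h hl' hy hty (y := w) (by simp [hw, hwx]) hwy
              have := rel3 h hpi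
              have := pp_ge (kd w)
              omega)
    have := sum_Kf (p3f kd) hl.nd
    have e4 : (l.map (fun x => p3f kd (some x))).sum = SV kd l := rfl
    rw [this, e4] at key
    simp only [p3f] at key
    omega
  have noup : 26 + SU kd l = 49 + SP kd l → 48 + SV kd l = 25 + SP kd l → kd x = .up → False := by
    intro a b hz
    obtain ⟨hf, ht3, hpA⟩ := mode2 49 25 a b (by omega) (by omega)
    rw [hz] at s1 s2' s3'
    simp only [pp, uu, vv] at s1 s2' s3'
    obtain ⟨y, hy, hty⟩ := exists_next h h1 hl' (by omega)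
    have hpy := pp_ge (kd y)
    have gg := prim3 h h3 hl' hy hty (by omega) (by omega)
    have gf : f3 (kd y) = true ∧ t3 y = 48 + SV kd (l ++ [x]) := by
      rcases gg with gg | gg
      · exact ⟨gg.1, gg.2.1⟩
      · omega
    obtain ⟨gf, gt3⟩ := gf
    have key := tile_le (p2f kd) (sf s2 t2) L (hd2 h) (hb2 h) (hs2 h2) (Kf l)
      (26 + SU kd l + 1) (by omega) (by
        intro i hi hpi
        cases i with
        | none => exact absurd none_mem_Kf hi
        | some w =>
          have hw : w ∉ l := fun h' => hi (mem_Kf.2 h')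
          simp only [sf]
          simp only [p2f] at hpi
          by_cases hwx : w = x
          · subst hwx
            have := h.q3 w hf hpi
            rw [hz] at this
            simp only [vv] at this
            omega
          · by_cases hwy : w = y
            · subst hwy
              have := h.q3 w gf hpi
              have := f3_vv gf
              omega
            · have := other h hl' hy hty (y := w) (by simp [hw, hwx]) hwy
              have := rel2 h hpi
              have := pp_ge (kd w)
              omega)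
    have := sum_Kf (p2f kd) hl.nd
    have e4 : (l.map (fun x => p2f kd (some x))).sum = SU kd l := rfl
    rw [this, e4] at key
    simp only [p2f] at key
    omega
  cases S with
  | N1 =>
    simp only [Aof, Bof] at hA hB
    obtain ⟨hf, _, hpA⟩ := mode1 26 48 (by omega) (by omega) (by omega) (by omega)
    have nz := noz 26 (by omega) (by omega) (by omega) (by omega)
    revert hf hpA nz
    generalize kd x = c
    cases c <;> simp [f2, step, pp]
  | Z1 =>
    simp only [Aof, Bof] at hA hB
    obtain ⟨hf, _, hpA⟩ := mode1 25 49 (by omega) (by omega) (by omega) (by omega)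
    have nz := noz 25 (by omega) (by omega) (by omega) (by omega)
    revert hf hpA nz
    generalize kd x = c
    cases c <;> simp [f2, step, pp]
  | X =>
    simp only [Aof, Bof] at hA hB
    obtain ⟨hf, _, hpA⟩ := mode1 20 54 (by omega) (by omega) (by omega) (by omega)
    revert hf hpA
    generalize kd x = c
    cases c <;> simp [f2, step, pp]
  | N2 =>
    simp only [Aof, Bof] at hA hB
    obtain ⟨hf, _, hpA⟩ := mode2 50 24 (by omega) (by omega) (by omega) (by omega)
    revert hf hpA
    generalize kd x = c
    cases c <;> simp [f3, step, pp]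
  | Z2 =>
    simp only [Aof, Bof] at hA hB
    obtain ⟨hf, _, hpA⟩ := mode2 49 25 (by omega) (by omega) (by omega) (by omega)
    have nz := noup (by omega) (by omega)
    revert hf hpA nz
    generalize kd x = c
    cases c <;> simp [f3, step, pp]
  | F1 =>
    simp only [Aof, Bof] at hA hB
    have hL : L = SP kd l + 22 := by
      by_contra hne
      obtain ⟨hf, ht2, hpA⟩ := prim2 h h2 hl hx ht (by omega) (by omega)
      rcases prim3 h h3 hl hx ht (by omega) (by omega) with this | this
      · have a1 := h.q3 x this.1 (by have := f2_uu hf; omega)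
        have := f3_vv this.1
        omega
      · omega
    have hb := h.b1 x
    have hu : uu (kd x) = 0 := by omega
    revert hb hu
    rw [ht, hL]
    generalize kd x = c
    cases c <;> simp [step, pp, uu] <;> omega
  | F2 => exact absurd rfl hS

include h h1 h2 h3 in
lemma finish {l : List Λ} (hl : Pre kd t1 l) (hr : run .N1 (l.map kd) = some .F2) :
    ∀ x, x ∈ l := by
  obtain ⟨hA, hB⟩ := run_vals hr
  have e1 : ((l.map kd).map pp).sum = SP kd l := by simp [SP, List.map_map]; rfl
  have e2 : ((l.map kd).map uu).sum = SU kd l := by simp [SU, List.map_map]; rfl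
  rw [e1, e2] at hA
  simp only [Aof] at hA
  have hL : ¬ SP kd l < L := by
    intro hlt
    have key := tile_le (p2f kd) (sf s2 t2) L (hd2 h) (hb2 h) (hs2 h2) (Kf l)
      (26 + SU kd l + 1) (by omega) (by
        intro i hi hpi
        cases i with
        | none => exact absurd none_mem_Kf hi
        | some w =>
          have hw : w ∉ l := fun h' => hi (mem_Kf.2 h')
          simp only [sf]
          simp only [p2f] at hpi
          have := hl.later w hw
          have := rel2 h hpi
          have := pp_ge (kd w)
          omega)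
    have := sum_Kf (p2f kd) hl.nd
    have e4 : (l.map (fun x => p2f kd (some x))).sum = SU kd l := rfl
    rw [this, e4] at key
    simp only [p2f] at key
    omega
  intro x
  by_contra hx
  have := hl.later x hx
  have := h.b1 x
  have := pp_ge (kd x)
  omega

include h h1 h2 h3 in
lemma extend (n : ℕ) : ∀ (l : List Λ) (S : St), Pre kd t1 l → run .N1 (l.map kd) = some S →
    Fintype.card Λ - l.length = n → ∃ l', Pre kd t1 l' ∧ run .N1 (l'.map kd) = some .F2 := by
  induction n with
  | zero =>
    intro l S hl hr hc
    by_cases hS : S = .F2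
    · exact ⟨l, hl, hS ▸ hr⟩
    · obtain ⟨x, hx, ht, S', hS'⟩ := next_step h h1 h2 h3 hl hr hS
      exfalso
      have h5 := (next_pre h hl hx ht).nd.length_le_card
      simp only [List.length_append, List.length_singleton] at h5
      omega
  | succ n ih =>
    intro l S hl hr hc
    by_cases hS : S = .F2
    · exact ⟨l, hl, hS ▸ hr⟩
    · obtain ⟨x, hx, ht, S', hS'⟩ := next_step h h1 h2 h3 hl hr hS
      refine ih (l ++ [x]) S' (next_pre h hl hx ht) ?_ ?_
      · rw [List.map_append, run_append, hr]
        simp [run, hS']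
      · simp only [List.length_append, List.length_singleton]
        omega

end

end B2

open B2 in
theorem gs_order {Λ : Type} [Fintype Λ] (kd : Λ → Let) (L : ℕ) (t1 t2 t3 : Λ → ℕ) (s2 s3 : ℕ)
    (h : GS kd L t1 t2 t3 s2 s3) (h1 : ∑ x, pp (kd x) = L) (h2 : 26 + ∑ x, uu (kd x) = L)
    (h3 : 48 + ∑ x, vv (kd x) = L) :
    ∃ l : List Λ, l.Nodup ∧ (∀ x, x ∈ l) ∧ l.Pairwise (fun x y => t1 x < t1 y) ∧
      run .N1 (l.map kd) = some .F2 := by
  classical
  obtain ⟨l, hl, hr⟩ := extend h h1 h2 h3 _ [] .N1
    ⟨by simp, by simp, by simp, by simp [SP]⟩ rfl rfl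
  exact ⟨l, hl.nd, finish h h1 h2 h3 hl hr, hl.sorted, hr⟩

end Pool.Agent.helper66.JS
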