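import Pool.Agent.helper72.JS.E
import Pool.Agent.helper72.JS.F2
import Pool.Agent.helper71.JS.V1
import Pool.Agent.helper54.JS.K1
import Pool.Agent.helper77.JS.G1
import Pool.Agent.helper77.JS.G2
import Pool.Agent.helper77.JS.G3
import Pool.Agent.helper77.JS.U1
import Pool.Agent.helper63.JS.J2
import Pool.Agent.helper10.JS66.V2
import Pool.Agent.helper14.JS.U3
import Pool.Agent.helper14.JS.V0
import Pool.Agent.helper14.JS.V3
import Pool.Agent.helper23.JS.C
import Pool.Agent.helper23.JS.D2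
import Pool.Agent.helper3.JS.D1
import Pool.Agent.helper57.JS.T1
import Pool.Agent.helper57.JS.T2
import Pool.Agent.helper59.JS.A1
import Pool.Agent.helper59.JS.A2
import Pool.Agent.helper59.JS.X
import Pool.Agent.helper61.JS.Lo
import Pool.Agent.helper63.JS.F1
import Pool.Agent.helper63.JS.J1
import Pool.Agent.helper66.JS.B2
import Pool.Agent.helper71.JS.H
import Pool.Agent.helper10.JS66.U2

/-!
# Assembly
-/

set_option autoImplicit false

namespace Pool.Agent.helper66.JS

open Turing Finset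

/-! ### assembly (helper66) -/

theorem wps_of_feasible (W : List WD) (E : ℕ) (hW : ∀ w ∈ W, w.Ok)
    (hb : (W.map (fun w => w.A.card)).sum = (W.map (fun w => w.Z.card)).sum)
    (hf : Feasible (inst W E)) : ∃ τ σ, WPS W E τ σ := by
  obtain ⟨s, hs⟩ := (feasible_iff _ _).1 hf
  obtain ⟨t1, t2, t3, s2, s3, h, ht⟩ := gs_of_nsched _ (words_three W E) _ s hs
  obtain ⟨h1, h2, h3⟩ := loads W E hW hb
  obtain ⟨l, hn, hc, hp, hr⟩ := gs_order _ _ t1 t2 t3 s2 s3 h h1 h2 h3
  exact wps_of_order W E hW t1 ht l hn hc hp hr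

theorem net_no (n : Net) (hn : n.Ok) (hf : Feasible n.toInst) :
    ∀ z < n.Zn, ∃ is m', (∀ i ∈ is, i < n.r) ∧ Fires n.rule (n.c0 z) is m' ∧
      ∀ s < n.a, m' s = n.cf z s := by
  obtain ⟨h1, h2, h3⟩ := net_words_ok n hn
  obtain ⟨τ, σ, h⟩ := wps_of_feasible n.W n.E (fun w hw => (h1 w hw).1) h3 hf
  obtain ⟨S, hS1, hS2, hS3, hS4⟩ := tight n.W n.E τ σ h (fun w hw => (h1 w hw).1)
    (fun w hw => (h1 w hw).2) h2
  obtain ⟨tT, tR, hT⟩ := tps_of_list n hn S hS1 hS2 hS3 hS4
  exact runs_of_tps n hn tT tR hT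

theorem inst_perm {W W' : List WD} (h : W.Perm W') (E : ℕ) (hf : Feasible (inst W E)) :
    Feasible (inst W' E) := by
  have h1 : (words W E).Perm (words W' E) := by
    unfold words
    exact ((((((h.map _).append_right _).append_right _).append_right _).append_right _).append_right _)
  have h2 : Lof (words W E) = Lof (words W' E) := by
    unfold Lof
    exact ((h1.flatten).map _).sum_eq
  have h3 : (instJobs (words W E)).Perm (instJobs (words W' E)) := by
    unfold instJobs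
    exact ((h1.map _).cons _).cons _
  unfold inst at *
  rw [← h2]
  exact feasible_perm h3 hf

theorem net_yes (n : Net) (hn : n.Ok) (rs : ℕ → List ℕ) (h : n.IsRuns rs) :
    Feasible n.toInst := by
  have hp := perm_of_runs n hn rs h
  refine inst_perm hp n.E (feasible_of_sps _ _ _ ?_ (sps_of_runs n hn rs h))
  intro p hp'
  exact ((net_words_ok n hn).1 p.1 (hp.subset (List.mem_map_of_mem hp'))).1

theorem theInst_iff (δ : NTM) (B Q c k N : ℕ) (hB : BOk δ B Q) (hk : 0 < k) (x : List Bool)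
    (hN : B ^ (c * (x.length + 1) / k + 1) ≤ N)
    (hacc : Accepts δ x → AcceptsIn δ x (c * (x.length + 1)) N) :
    Feasible (theInst δ B Q c k N x) ↔ Accepts δ x := by
  have hg : tape0 x 0 + 1 < B := by
    have := hB.B4
    unfold tape0
    split_ifs
    · cases x.getD 0 false <;> simp <;> omega
    · omega
  have hok := tokV_ok δ B Q k (tape0 x 0) hB hk hg
  have he : 0 < (c0V B k (c * (x.length + 1) / k + 1) ((2 * k + 3) * B * N) (tape0 x))
      (tokV δ B Q k (tape0 x 0)).e := by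
    simp [c0V, tokV]
  have hf : (c0V B k (c * (x.length + 1) / k + 1) ((2 * k + 3) * B * N) (tape0 x))
      (tokV δ B Q k (tape0 x 0)).f = 0 := by
    simp [c0V, tokV]
  have hnet := tok_net_ok (tokV δ B Q k (tape0 x 0)) hok
    (c0V B k (c * (x.length + 1) / k + 1) ((2 * k + 3) * B * N) (tape0 x))
    (20 * B * N * (N + 1)) he
  constructor
  · intro h
    obtain ⟨is, m', hi, hfi, hm⟩ := net_no _ hnet h 0 hnet.Zn
    obtain ⟨j, C, hr⟩ := tok_no _ hok _ _ is m' hi hfi hm
    exact tokV_no δ B Q k _ _ hB hk (Nat.succ_pos _) x j C hr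
  · intro h
    have hS : c * (x.length + 1) ≤ k * (c * (x.length + 1) / k + 1) := by
      have := Nat.lt_mul_div_succ (c * (x.length + 1)) hk
      omega
    have hR : (2 * k + 3) * B ^ (c * (x.length + 1) / k + 1 + 1) ≤ (2 * k + 3) * B * N := by
      rw [pow_succ B, mul_assoc]
      refine Nat.mul_le_mul_left _ ?_
      rw [mul_comm]
      exact Nat.mul_le_mul_left _ hN
    obtain ⟨j, hj, C, hr⟩ := tokV_yes δ B Q k _ _ _ N hB hk (Nat.succ_pos _) hS hR x (hacc h)
    have hj' : j ≤ 20 * B * N * (N + 1) := by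
      refine hj.trans (Nat.mul_le_mul_right _ ?_)
      have h5 : B ^ ((c * (x.length + 1) / k).succ + 1) ≤ B * N := by
        rw [pow_succ, mul_comm]
        exact Nat.mul_le_mul_left _ hN
      calc 20 * B ^ ((c * (x.length + 1) / k).succ + 1) ≤ 20 * (B * N) :=
            Nat.mul_le_mul_left _ h5
        _ = 20 * B * N := by ring
    obtain ⟨rs, hrs⟩ := tok_yes _ hok _ _ he hf j C hj' hr
    exact net_yes _ hnet rs hrs


namespace T3

/-! ### growth -/

section growth
variable (Y : List Bool → ℕ)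

def O (f : List Bool → ℕ) (g : ℕ) : Prop := ∃ C, ∀ x, f x ≤ C * Y x ^ g

variable {Y} (hY : ∀ x, 1 ≤ Y x)

include hY in
lemma O.mono_exp {f : List Bool → ℕ} {g g' : ℕ} (h : O Y f g) (hg : g ≤ g') : O Y f g' := by
  obtain ⟨C, hC⟩ := h
  exact ⟨C, fun x => (hC x).trans (Nat.mul_le_mul_left _ (Nat.pow_le_pow_right (hY x) hg))⟩

lemma O.mono {f f' : List Bool → ℕ} {g : ℕ} (h : O Y f g) (hf : ∀ x, f' x ≤ f x) : O Y f' g := by
  obtain ⟨C, hC⟩ := h
  exact ⟨C, fun x => (hf x).trans (hC x)⟩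

include hY in
lemma O.const (c : ℕ) (g : ℕ) : O Y (fun _ => c) g :=
  ⟨c, fun x => Nat.le_mul_of_pos_right _ (Nat.pow_pos (hY x))⟩

lemma O.add {f f' : List Bool → ℕ} {g : ℕ} (h : O Y f g) (h' : O Y f' g) :
    O Y (fun x => f x + f' x) g := by
  obtain ⟨C, hC⟩ := h
  obtain ⟨C', hC'⟩ := h'
  exact ⟨C + C', fun x => by rw [add_mul]; exact add_le_add (hC x) (hC' x)⟩

lemma O.mulc {f : List Bool → ℕ} {g : ℕ} (h : O Y f g) (c : ℕ) :
    O Y (fun x => c * f x) g := by
  obtain ⟨C, hC⟩ := h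
  exact ⟨c * C, fun x => by rw [mul_assoc]; exact Nat.mul_le_mul_left _ (hC x)⟩

lemma O.pow {f : List Bool → ℕ} {g : ℕ} (h : O Y f g) (e : ℕ) :
    O Y (fun x => f x ^ e) (g * e) := by
  obtain ⟨C, hC⟩ := h
  exact ⟨C ^ e, fun x => by rw [pow_mul, ← mul_pow]; exact Nat.pow_le_pow_left (hC x) e⟩

lemma O.self : O Y Y 1 := ⟨1, fun x => by simp⟩

end growth

lemma poly_bound (p : Polynomial ℕ) : ∃ a d, ∀ n, p.eval n ≤ a * (n + 1) ^ d := by
  refine ⟨p.sum (fun _ c => c), p.natDegree, fun n => ?_⟩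
  rw [Polynomial.eval_eq_sum_range, Polynomial.sum_over_range _ (fun _ => rfl), Finset.sum_mul]
  refine Finset.sum_le_sum fun i hi => Nat.mul_le_mul_left _ ?_
  have : i ≤ p.natDegree := Nat.lt_succ_iff.1 (Finset.mem_range.1 hi)
  exact (Nat.pow_le_pow_left (Nat.le_succ n) i).trans (Nat.pow_le_pow_right (Nat.succ_pos n) this)

lemma exists_bok (δ : NTM) : ∃ B Q, B.Prime ∧ BOk δ B Q := by
  obtain ⟨B, hB, hp⟩ := Nat.exists_infinite_primes
    (4 + (δ.map (fun t => t.2.1 + t.2.2.2.1 + 2)).sum)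
  refine ⟨B, 2 + (δ.map (fun t => t.1 + t.2.2.1 + 1)).sum, hp, ⟨by omega, by omega, ?_, ?_⟩⟩
  · intro t ht
    have : t.1 + t.2.2.1 + 1 ≤ (δ.map (fun t => t.1 + t.2.2.1 + 1)).sum :=
      List.single_le_sum (by simp) _ (List.mem_map.2 ⟨t, ht, rfl⟩)
    omega
  · intro t ht
    have : t.2.1 + t.2.2.2.1 + 2 ≤ (δ.map (fun t => t.2.1 + t.2.2.2.1 + 2)).sum :=
      List.single_le_sum (by simp) _ (List.mem_map.2 ⟨t, ht, rfl⟩)
    omega

lemma block_bound (B c m' n k : ℕ) (hm : 0 < m') (hk : k = c * B * m' + 1) :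
    B ^ (c * (n + 1) / k + 1) ≤ 2 ^ (B + 1) * 2 ^ (n / m') := by
  set q := c * (n + 1) / k with hq
  have h1 : q * B ≤ n / m' + 1 := by
    rcases Nat.eq_zero_or_pos c with hc | hc
    · subst hc; simp at hq; rw [hq]; simp
    · have h2 : q * k ≤ c * (n + 1) := Nat.div_mul_le_self _ _
      have h3 : q * (c * B * m') ≤ c * (n + 1) := by
        refine le_trans ?_ h2
        rw [hk]; exact Nat.mul_le_mul_left _ (Nat.le_succ _)
      have h4 : q * B * m' ≤ n + 1 := by
        have : c * (q * B * m') ≤ c * (n + 1) := by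
          calc c * (q * B * m') = q * (c * B * m') := by ring
            _ ≤ _ := h3
        exact Nat.le_of_mul_le_mul_left this hc
      have h5 : q * B ≤ (n + 1) / m' := (Nat.le_div_iff_mul_le hm).2 h4
      refine h5.trans ?_
      rw [Nat.succ_div]
      split_ifs <;> omega
  have h6 : B ≤ 2 ^ B := Nat.lt_two_pow_self.le
  calc B ^ (q + 1) ≤ (2 ^ B) ^ (q + 1) := Nat.pow_le_pow_left h6 _
    _ = 2 ^ (B * (q + 1)) := by rw [← pow_mul]
    _ ≤ 2 ^ (B + 1 + n / m') := by
        refine Nat.pow_le_pow_right (by norm_num) ?_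
        have : B * (q + 1) = q * B + B := by ring
        omega
    _ = _ := by rw [pow_add]

lemma acc_mono {δ : NTM} {x : List Bool} {S t t' : ℕ} (h : AcceptsIn δ x S t) (ht : t ≤ t') :
    AcceptsIn δ x S t' := by
  obtain ⟨n, hn, C, hC⟩ := h
  exact ⟨n, hn.trans ht, C, hC⟩

lemma theInst_valid (δ : NTM) (B Q c k N : ℕ) (x : List Bool) :
    Valid (theInst δ B Q c k N x) ∧ pmax (theInst δ B Q c k N x) ≤ 48 := inst_valid _ _

lemma theInst_nmax (δ : NTM) (B Q c k N : ℕ) (x : List Bool) :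
    nmax (theInst δ B Q c k N x) ≤ 12 * ((32 * B * B * Q * k * (δ.length + 1) + 1) *
      (2 * (2 + 16 * B * B * Q * k + (2 * k + 4)) + 4)) + 9 :=
  net_nmax _ (Nat.succ_pos _)

lemma cmp_mono {α : Type} {dom : Set α} {ea eb : α → List Bool} {T T' : α → ℕ}
    (h : Cmp dom ea eb T) (hT : ∀ a, T a ≤ T' a) : Cmp dom ea eb T' := by
  obtain ⟨tm, ei, eo, h⟩ := h
  refine ⟨tm, ei, eo, fun a ha => ?_⟩
  obtain ⟨h1⟩ := h a ha
  exact ⟨{ steps := h1.steps, evals_in_steps := h1.evals_in_steps,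
           steps_le_m := h1.steps_le_m.trans (hT a) }⟩

end T3

open T3 in
/-- the final theorem (module T3) -/
theorem main (h : SliceFPT) : ∀ m : ℕ, 0 < m → NTISP ⊆ DTime2 m := by
  classical
  intro m hm X hX
  obtain ⟨δ, c, hXe, hacc⟩ := hX
  obtain ⟨e, he⟩ := h
  obtain ⟨B, Q, hp, hB⟩ := exists_bok δ
  obtain ⟨F, ⟨hF⟩, hFeq⟩ := red_poly δ B Q c hp
  obtain ⟨a, d, had⟩ := poly_bound hF.time
  set G := (d + 1) * (e + 1) with hG
  have hG1 : 0 < G := by positivity
  set m' := m * G with hm'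
  have hm1 : 0 < m' := Nat.mul_pos hm hG1
  obtain ⟨D0, hD0⟩ := hacc m' hm1
  set k := c * B * m' + 1 with hk
  have hk0 : 0 < k := by omega
  set D := D0 + 2 ^ (B + 1) with hD
  let N : List Bool → ℕ := fun x => D * 2 ^ (x.length / m')
  have hN1 : ∀ x : List Bool, B ^ (c * (x.length + 1) / k + 1) ≤ N x := fun x => by
    refine (block_bound B c m' x.length k hm1 hk).trans (Nat.mul_le_mul_right _ ?_)
    omega
  have hN2 : ∀ x : List Bool, Accepts δ x → AcceptsIn δ x (c * (x.length + 1)) (N x) := by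
    intro x hx
    exact acc_mono (hD0 x (by rw [hXe]; exact hx)) (Nat.mul_le_mul_right _ (Nat.le_add_right _ _))
  have hiff : ∀ x : List Bool, Feasible (theInst δ B Q c k (N x) x) ↔ x ∈ X := fun x => by
    rw [hXe]
    exact theInst_iff δ B Q c k (N x) hB hk0 x (hN1 x) (hN2 x)
  obtain ⟨C3, tm3, ei3, eo3, h3⟩ := he (12 * ((32 * B * B * Q * k * (δ.length + 1) + 1) *
      (2 * (2 + 16 * B * B * Q * k + (2 * k + 4)) + 4)) + 9)
  -- the three machines
  let ea : List Bool → List Bool := fun x => x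
  let eb : List Bool → List Bool := fun x => N487b59b3.bitEncode (padw k (N x) x)
  let ec : List Bool → List Bool := fun x => N487b59b3.bitEncode (theInst δ B Q c k (N x) x)
  let ed : List Bool → List Bool := fun x => [decide (x ∈ X)]
  obtain ⟨C1, c1⟩ := padder k D m' hm1
  let T1 : List Bool → ℕ := fun x => C1 * (2 ^ (x.length / m') + x.length + 1)
  let T2 : List Bool → ℕ := fun x => hF.time.eval (eb x).length
  let T3' : List Bool → ℕ := fun x => C3 * ((ec x).length + 1) ^ e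
  have c2 : Cmp Set.univ eb ec T2 := by
    refine ⟨hF.tm, hF.inputAlphabet, hF.outputAlphabet, fun x _ => ⟨?_⟩⟩
    have := hF.outputsFun (padw k (N x) x)
    rw [hFeq k (N x) x hk0 (hN1 x)] at this
    exact this
  have c3 : Cmp Set.univ ec ed T3' := by
    refine ⟨tm3, ei3, eo3, fun x _ => ?_⟩
    have hv := theInst_valid δ B Q c k (N x) x
    have := h3 (theInst δ B Q c k (N x) x) hv.1 hv.2 (theInst_nmax δ B Q c k (N x) x)
    have e1 : decide (Feasible (theInst δ B Q c k (N x) x)) = decide (x ∈ X) := by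
      rw [decide_eq_decide]; exact hiff x
    unfold Answers at this
    rw [e1] at this
    exact this
  obtain ⟨A1, l1⟩ := cmp_length _ _ _ _ c1
  obtain ⟨A2, l2⟩ := cmp_length _ _ _ _ c2
  obtain ⟨C12, c12⟩ := cmp_comp _ _ _ _ _ _ c1 c2
  obtain ⟨C123, c123⟩ := cmp_comp _ _ _ _ _ _ c12 c3
  -- growth
  let Y : List Bool → ℕ := fun x => 2 ^ (x.length / m') + x.length + 1
  have hY : ∀ x, 1 ≤ Y x := fun x => Nat.succ_le_of_lt (Nat.succ_pos _)
  have o0 : O Y (fun x => x.length) 1 := ⟨1, fun x => by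
    rw [pow_one, one_mul]
    exact Nat.le_succ_of_le (Nat.le_add_left _ _)⟩
  have o1 : O Y T1 1 := (O.self (Y := Y)).mulc C1
  have ob : O Y (fun x => (eb x).length) 1 :=
    (o0.add (o1.mulc A1)).mono (fun x => l1 x trivial)
  have o2 : O Y T2 d := by
    have := ((ob.add (O.const hY 1 1)).pow d).mulc a
    rw [one_mul] at this
    exact this.mono (fun x => had _)
  have oc : O Y (fun x => (ec x).length) (d + 1) :=
    ((ob.mono_exp hY (by omega)).add ((o2.mono_exp hY (by omega)).mulc A2)).mono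
      (fun x => l2 x trivial)
  have o3 : O Y T3' ((d + 1) * e) := ((oc.add (O.const hY 1 _)).pow e).mulc C3
  have g1 : 1 ≤ G := hG1
  have g2 : d ≤ G := by
    rw [hG]; nlinarith [Nat.zero_le d, Nat.zero_le e, Nat.zero_le (d * e)]
  have g3 : (d + 1) * e ≤ G := by rw [hG]; exact Nat.mul_le_mul_left _ (Nat.le_succ e)
  have o12 : O Y (fun x => C12 * (T1 x + T2 x + (ea x).length + 1)) G :=
    ((((o1.mono_exp hY g1).add (o2.mono_exp hY g2)).add (o0.mono_exp hY g1)).add
      (O.const hY 1 G)).mulc C12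
  have oT : O Y (fun x => C123 * (C12 * (T1 x + T2 x + (ea x).length + 1) + T3' x +
      (ea x).length + 1)) G :=
    (((o12.add (o3.mono_exp hY g3)).add (o0.mono_exp hY g1)).add (O.const hY 1 G)).mulc C123
  obtain ⟨K, hK⟩ := oT
  have hYG : ∀ x, Y x ^ G ≤ (1 + m') ^ G * 2 ^ (x.length / m) := by
    intro x
    have y1 : Y x ≤ (1 + m') * 2 ^ (x.length / m') := by
      have z1 : x.length + 1 ≤ m' * (x.length / m' + 1) := by
        have := Nat.lt_mul_div_succ x.length hm1
        omega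
      have z2 : x.length / m' + 1 ≤ 2 ^ (x.length / m') := Nat.lt_two_pow_self
      have z3 := Nat.mul_le_mul_left m' z2
      simp only [Y]
      rw [add_mul, one_mul]
      omega
    calc Y x ^ G ≤ ((1 + m') * 2 ^ (x.length / m')) ^ G := Nat.pow_le_pow_left y1 G
      _ = (1 + m') ^ G * 2 ^ (x.length / m' * G) := by rw [mul_pow, ← pow_mul]
      _ ≤ _ := by
          refine Nat.mul_le_mul_left _ (Nat.pow_le_pow_right (by norm_num) ?_)
          rw [hm', ← Nat.div_div_eq_div_mul]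
          exact Nat.div_mul_le_self _ _
  have fin := cmp_mono c123 (T' := fun x => K * (1 + m') ^ G * 2 ^ (x.length / m)) (fun x => by
    refine (hK x).trans ?_
    rw [mul_assoc]
    exact Nat.mul_le_mul_left _ (hYG x))
  obtain ⟨tm, ei, eo, hh⟩ := fin
  exact ⟨K * (1 + m') ^ G, tm, ei, eo, fun x => hh x trivial⟩


theorem sliceFPT_of_fpt (h : FPT) : SliceFPT := by
  obtain ⟨f, c, tm, ei, eo, _, h⟩ := h
  refine ⟨c, fun k => ⟨∑ i ∈ Finset.range (48 + k + 1), f i, tm, ei, eo, fun I hI hp hn => ?_⟩⟩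
  obtain ⟨h1⟩ := h I hI
  refine ⟨{ steps := h1.steps, evals_in_steps := h1.evals_in_steps,
            steps_le_m := h1.steps_le_m.trans (Nat.mul_le_mul_right _ ?_) }⟩
  exact Finset.single_le_sum (f := f) (fun _ _ => Nat.zero_le _) (Finset.mem_range.2 (by omega))

end Pool.Agent.helper66.JS
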