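import Mathlib
import Pool.Prelude.Def_H_e9e0c647

/-!
# Three-machine job shop `J3||Cmax`, parameterized tractability, and two complexity classes

All definitions used in the statement of `MP_a4d309_lc.NotFPT`.
-/

set_option autoImplicit false

namespace Pool.Agent.helper66.JS

open Turing

/-! ## The scheduling problem -/

/-- A job is the list of its operations; an operation is a pair (machine, processing time). -/
abbrev Job := List (ℕ × ℕ)

/-- An instance: the list of jobs and a bound on the makespan. -/
abbrev Inst := List Job × ℕ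

/-- Operation number `i` of job number `j` runs on machine `m` and takes time `p`. -/
def IsOp (jobs : List Job) (j i m p : ℕ) : Prop :=
  ∃ J : Job, jobs[j]? = some J ∧ J[i]? = some (m, p)

/-- `s j i` is the start time of operation `i` of job `j`; all jobs are finished by time `L`. -/
structure IsSchedule (jobs : List Job) (L : ℕ) (s : ℕ → ℕ → ℝ) : Prop where
  nonneg : ∀ j i m p, IsOp jobs j i m p → 0 ≤ s j i
  bound : ∀ j i m p, IsOp jobs j i m p → s j i + p ≤ L
  order : ∀ j i m p m' p', IsOp jobs j i m p → IsOp jobs j (i + 1) m' p' →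
    s j i + p ≤ s j (i + 1)
  machine : ∀ j i j' i' m p p', IsOp jobs j i m p → IsOp jobs j' i' m p' → (j, i) ≠ (j', i') →
    s j i + p ≤ s j' i' ∨ s j' i' + p' ≤ s j i

/-- The makespan bound can be met. -/
def Feasible (I : Inst) : Prop := ∃ s, IsSchedule I.1 I.2 s

/-- Instances of `J3||Cmax`: machines `0, 1, 2`, positive times, consecutive operations of a job on
different machines. -/
def Valid (I : Inst) : Prop :=
  ∀ J ∈ I.1, (∀ o ∈ J, o.1 < 3 ∧ 0 < o.2) ∧ J.IsChain (fun o o' => o.1 ≠ o'.1)

/-- the largest processing time -/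
def pmax (I : Inst) : ℕ := (I.1.flatten.map Prod.snd).foldr max 0

/-- the largest number of operations of a job -/
def nmax (I : Inst) : ℕ := (I.1.map List.length).foldr max 0

/-! ## Machines -/

/-- The machine `tm` started on the word `w` stops after at most `t` steps with answer `b`. -/
def Answers (tm : FinTM2) (ei : tm.Γ tm.k₀ ≃ Bool) (eo : tm.Γ tm.k₁ ≃ Bool) (w : List Bool)
    (b : Bool) (t : ℕ) : Prop :=
  Nonempty (TM2OutputsInTime tm (w.map ei.symm) (some ([b].map eo.symm)) t)

open Classical in
/-- `J3||Cmax` is fixed-parameter tractable in `p_max + n_max`: one machine decides all instances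
`I` in time `f (p_max + n_max) * |I| ^ c`, with `f` computable. -/
def FPT : Prop :=
  ∃ (f : ℕ → ℕ) (c : ℕ) (tm : FinTM2) (ei : tm.Γ tm.k₀ ≃ Bool) (eo : tm.Γ tm.k₁ ≃ Bool),
    Computable f ∧ ∀ I : Inst, Valid I →
      Answers tm ei eo (N487b59b3.bitEncode I) (decide (Feasible I))
        (f (pmax I + nmax I) * ((N487b59b3.bitEncode I).length + 1) ^ c)

open Classical in
/-- Non-uniform tractability, even for `p_max ≤ 48` only: there is one exponent `c` such that for
every `k` the instances of `J3||Cmax` with `p_max ≤ 48` and `n_max ≤ k` can be decided in time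
`C_k * |I| ^ c`. -/
def SliceFPT : Prop :=
  ∃ c : ℕ, ∀ k : ℕ, ∃ (C : ℕ) (tm : FinTM2) (ei : tm.Γ tm.k₀ ≃ Bool) (eo : tm.Γ tm.k₁ ≃ Bool),
    ∀ I : Inst, Valid I → pmax I ≤ 48 → nmax I ≤ k →
      Answers tm ei eo (N487b59b3.bitEncode I) (decide (Feasible I))
        (C * ((N487b59b3.bitEncode I).length + 1) ^ c)

open Classical in
/-- Languages decidable by a deterministic machine in time `D * 2 ^ (n / m)`. -/
def DTime2 (m : ℕ) : Set (Set (List Bool)) :=
  {X | ∃ (D : ℕ) (tm : FinTM2) (ei : tm.Γ tm.k₀ ≃ Bool) (eo : tm.Γ tm.k₁ ≃ Bool),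
    ∀ x : List Bool, Answers tm ei eo x (decide (x ∈ X)) (D * 2 ^ (x.length / m))}

/-- A nondeterministic one-tape Turing machine, given by its finite list of transitions
`(q, g, q', g', right)`: in state `q` reading `g`, go to state `q'`, write `g'` and move the head
right or left. The start state is `0`, the accepting state `1`; the tape symbols `0, 1` are the
bits, `2` is the blank. -/
abbrev NTM := List (ℕ × ℕ × ℕ × ℕ × Bool)

/-- Configurations: state, head position, tape (infinite to the right). -/
structure Conf where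
  q : ℕ
  pos : ℕ
  tape : ℕ → ℕ

/-- The initial tape. -/
def tape0 (x : List Bool) (i : ℕ) : ℕ := if i < x.length then (x.getD i false).toNat else 2

/-- The initial configuration. -/
def Conf.start (x : List Bool) : Conf := ⟨0, 0, tape0 x⟩

/-- One step. -/
def NStep (δ : NTM) (C C' : Conf) : Prop :=
  ∃ (g' : ℕ) (right : Bool), (C.q, C.tape C.pos, C'.q, g', right) ∈ δ ∧
    C'.tape = Function.update C.tape C.pos g' ∧
    (if right then C'.pos = C.pos + 1 else C.pos = C'.pos + 1)

/-- A computation of `n` steps in which the head visits only cells with number `< S`. -/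
inductive NRun (δ : NTM) (S : ℕ) : ℕ → Conf → Conf → Prop
  | refl (C : Conf) (h : C.pos < S) : NRun δ S 0 C C
  | step (n : ℕ) (C C' C'' : Conf) (h : C.pos < S) (h1 : NStep δ C C') (h2 : NRun δ S n C' C'') :
      NRun δ S (n + 1) C C''

/-- `x` is accepted by a computation with at most `t` steps on at most `S` cells. -/
def AcceptsIn (δ : NTM) (x : List Bool) (S t : ℕ) : Prop :=
  ∃ n ≤ t, ∃ C, NRun δ S n (Conf.start x) C ∧ C.q = 1

/-- `x` is accepted. -/
def Accepts (δ : NTM) (x : List Bool) : Prop := ∃ S t, AcceptsIn δ x S t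

/-- Languages of nondeterministic machines with simultaneous linear space and subexponential
time `2 ^ o(n)`. -/
def NTISP : Set (Set (List Bool)) :=
  {X | ∃ (δ : NTM) (c : ℕ), X = {x | Accepts δ x} ∧ ∀ m : ℕ, 0 < m → ∃ D : ℕ,
    ∀ x ∈ X, AcceptsIn δ x (c * (x.length + 1)) (D * 2 ^ (x.length / m))}

end Pool.Agent.helper66.JS
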