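import Pool.Agent.helper66.JS.Problem

/-!
# Two more classes for the exact characterization
-/

set_option autoImplicit false

namespace Pool.Agent.helper66.JS

open Turing

open Classical in
/-- Non-uniform fixed-parameter tractability of `J3||Cmax` in `p_max + n_max`: there is one
exponent `c` such that for every `k` the instances with `p_max + n_max ≤ k` can be decided in time
`C_k * |I| ^ c`. -/
def NUFPT : Prop :=
  ∃ c : ℕ, ∀ k : ℕ, ∃ (C : ℕ) (tm : FinTM2) (ei : tm.Γ tm.k₀ ≃ Bool) (eo : tm.Γ tm.k₁ ≃ Bool),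
    ∀ I : Inst, Valid I → pmax I + nmax I ≤ k →
      Answers tm ei eo (N487b59b3.bitEncode I) (decide (Feasible I))
        (C * ((N487b59b3.bitEncode I).length + 1) ^ c)

/-- Languages of nondeterministic one-tape machines with simultaneous linear space and time
`D * 2 ^ (n / m)`. -/
def NTISP2 (m : ℕ) : Set (Set (List Bool)) :=
  {X | ∃ (δ : NTM) (c D : ℕ), X = {x | Accepts δ x} ∧
    ∀ x ∈ X, AcceptsIn δ x (c * (x.length + 1)) (D * 2 ^ (x.length / m))}

/-- For some `a`, nondeterministic time `2 ^ (n / (a m))` (with linear space) is contained in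
deterministic time `2 ^ (n / m)`, for every `m`. -/
def Collapse : Prop := ∃ a : ℕ, 0 < a ∧ ∀ m : ℕ, 0 < m → NTISP2 (a * m) ⊆ DTime2 m

end Pool.Agent.helper66.JS
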